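import Pool.Agent.H780.NV.Main

/-!
# The volume of the part near the boundary: caps and collars (after `RCAP` and `HEM` of the library)
-/

set_option autoImplicit false

open MeasureTheory Metric Set Filter Topology InnerProductGeometry Matrix

namespace Pool.Agent.H780.NV

open Pool.Agent.H241R3.FV Pool.Agent.N526.CP Pool.Agent.N979.CP

theorem bd_cont {n : ℕ} {M : Type} [MetricSpace M] {bd : Sph n → M} {N : Set M}
    (S : NFill n M bd N) : Continuous bd := by
  obtain ⟨K, hK⟩ := S.col_lip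
  have h : LipschitzWith (Real.toNNReal K) bd := by
    refine LipschitzWith.of_dist_le_mul fun x y => ?_
    have hx : ‖(x : E n)‖ = 1 := norm_sph x
    have hy : ‖(y : E n)‖ = 1 := norm_sph y
    have h1 := (hK x y (by rw [hx]; exact S.r_lt) hx.le (by rw [hy]; exact S.r_lt) hy.le).1
    rw [S.col_bd, S.col_bd] at h1
    rw [Subtype.dist_eq, dist_eq_norm (x : E n)]
    exact h1.trans (mul_le_mul_of_nonneg_right (Real.le_coe_toNNReal K) (norm_nonneg _))
  exact h.continuous

instance nonempty_sph (d : ℕ) : Nonempty (Sph (d + 1)) :=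
  ⟨⟨EuclideanSpace.single 0 1, by simp⟩⟩

/-- the region theorem with the height function of a radius function -/
theorem near_region {d : ℕ} (hd : 1 ≤ d) {s : ℝ} (hGood : Good2 d s) {M : Type} [MetricSpace M]
    [ProperSpace M] {bd : Sph (d + 1) → M} {r : Sph (d + 1) → ℝ}
    (S : NFill (d + 1) M bd (near bd r))
    (F : E (d + 1) → E (d + 1)) (L : NNReal) (hFL : LipschitzOnWith L F (closedBall 0 1))
    (hFs : ∀ y ∈ closedBall (0 : E (d + 1)) 1, ‖F y‖ ≤ s)
    (hbd : ∀ x y : Sph (d + 1), hdist (F x) (F y) ≤ dist (bd x) (bd y))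
    {B : ℝ} (hr : ∀ x, r x ≤ B)
    (hFh : ∀ x : Sph (d + 1), Real.arcsin ‖F x‖ ≤ r x) :
    ENNReal.ofReal (∫ y in ball (0 : E (d + 1)) 1, (fderiv ℝ F y).det * (√(1 - ‖F y‖ ^ 2))⁻¹) ≤
      S.vol := by
  have hh : Hgt (near bd r) (hgt bd r) :=
    isHgt hr (isCompact_range (bd_cont S)).isBounded
  refine region hd hGood S hh F L hFL hFs hbd fun x => ?_
  have := le_hgt (bd := bd) hr (bd x) x
  rw [dist_self, sub_zero] at this
  exact (hFh x).trans this

/-- the cap theorem -/
theorem near_cap {d : ℕ} (hd : 1 ≤ d) {ρ : ℝ} (h0 : 0 < ρ) (h1 : ρ < Real.pi / 2)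
    (hR : Good2 d (Real.sin ρ)) {M : Type} [MetricSpace M] [ProperSpace M] {bd : Sph (d + 1) → M}
    (S : NFill (d + 1) M bd (near bd fun _ => ρ))
    (hS : ∀ x y, capDist ρ x y ≤ dist (bd x) (bd y)) :
    ENNReal.ofReal ((sig (d + 1)).real univ * ∫ t in (0 : ℝ)..ρ, Real.sin t ^ d) ≤ S.vol := by
  have hpi := Real.pi_pos
  have hs0 : 0 < Real.sin ρ := Real.sin_pos_of_pos_of_lt_pi h0 (by linarith)
  have hc0 : 0 < Real.cos ρ := Real.cos_pos_of_mem_Ioo ⟨by linarith, by linarith⟩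
  obtain ⟨s, hs⟩ : ∃ s, s = Real.sin ρ := ⟨_, rfl⟩
  rw [← hs] at hs0 hR
  have hsc : 1 - s ^ 2 = Real.cos ρ ^ 2 := by
    rw [hs]
    have := Real.sin_sq_add_cos_sq ρ
    linarith
  have hL : LipschitzOnWith ‖s‖₊ (fun y : E (d + 1) => s • y) (closedBall 0 1) :=
    (lipschitzWith_smul s).lipschitzOnWith
  have hN : ∀ y ∈ closedBall (0 : E (d + 1)) 1, ‖s • y‖ ≤ s := by
    intro y hy
    rw [mem_closedBall_zero_iff] at hy
    rw [norm_smul, Real.norm_of_nonneg hs0.le]
    nlinarith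
  have hD : ∀ x y : Sph (d + 1), hdist (s • (x : E (d + 1))) (s • (y : E (d + 1))) ≤
      dist (bd x) (bd y) := by
    intro x y
    refine le_trans (le_of_eq ?_) (hS x y)
    unfold hdist capDist
    have hn : ∀ z : Sph (d + 1), √(1 - ‖s • (z : E (d + 1))‖ ^ 2) = Real.cos ρ := by
      intro z
      rw [norm_smul, norm_sph, mul_one, Real.norm_of_nonneg hs0.le, hsc, Real.sqrt_sq hc0.le]
    rw [hn, hn, inner_smul_left, inner_smul_right, ← hs]
    congr 1
    simp only [conj_trivial]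
    ring
  have hnn : ∀ x : Sph (d + 1), Real.arcsin ‖s • (x : E (d + 1))‖ ≤ ρ := by
    intro x
    rw [norm_smul, norm_sph, mul_one, Real.norm_of_nonneg hs0.le, hs,
      Real.arcsin_sin (by linarith) h1.le]
  have key := near_region hd hR S (fun y => s • y) ‖s‖₊ hL hN hD (B := ρ)
    (fun _ => le_rfl) hnn
  rw [← CAPS.t d hd ρ h0 h1, ← hs]
  refine le_trans (le_of_eq ?_) key
  congr 1
  have hdet : ∀ y : E (d + 1), (fderiv ℝ (fun y : E (d + 1) => s • y) y).det = s ^ (d + 1) := by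
    intro y
    have h2 : fderiv ℝ (fun y : E (d + 1) => s • y) y = s • ContinuousLinearMap.id ℝ (E (d + 1)) :=
      (s • ContinuousLinearMap.id ℝ (E (d + 1))).hasFDerivAt.fderiv
    rw [h2]
    have h3 : (s • ContinuousLinearMap.id ℝ (E (d + 1))).det =
        LinearMap.det (s • (LinearMap.id : E (d + 1) →ₗ[ℝ] E (d + 1))) := rfl
    rw [h3, LinearMap.det_smul, LinearMap.det_id, mul_one, finrank_euclideanSpace_fin]
  simp only [hdet]
  rw [integral_const_mul]
  have h := Measure.setIntegral_comp_smul_of_pos volume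
    (fun y : E (d + 1) => (√(1 - ‖y‖ ^ 2))⁻¹) (ball (0 : E (d + 1)) 1) hs0
  rw [smul_unitBall_of_pos hs0, finrank_euclideanSpace_fin, smul_eq_mul] at h
  rw [h]
  unfold capv
  rw [← mul_assoc, mul_inv_cancel₀ (pow_ne_zero _ hs0.ne'), one_mul]

theorem cap_le {d : ℕ} {M : Type} [MetricSpace M] (bd : Sph (d + 1) → M) (ρ : ℝ) (h0 : 0 < ρ)
    (h1 : ρ < Real.pi / 2) (h : RoundCol bd ρ) (x' y' : Sph (d + 1)) :
    capDist ρ x' y' ≤ dist (bd x') (bd y') := by
  by_cases hxy : x' = y'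
  · subst hxy
    unfold capDist
    rw [real_inner_self_eq_norm_sq, norm_sph, one_pow, mul_one, Real.cos_sq_add_sin_sq,
      Real.arccos_one]
    exact dist_nonneg
  have hne : (x' : E (d + 1)) - (y' : E (d + 1)) ≠ 0 := by
    intro h2
    exact hxy (Subtype.ext (sub_eq_zero.1 h2))
  set z : ℝ := ‖(x' : E (d + 1)) - (y' : E (d + 1))‖ with hz
  have hz0 : 0 < z := norm_pos_iff.2 hne
  set c : ℝ := inner ℝ (x' : E (d + 1)) (y' : E (d + 1)) with hc
  have hz2 : z ^ 2 = 2 - 2 * c := by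
    rw [hz, norm_sub_sq_real, norm_sph, norm_sph]
    ring
  have hxn : ‖z⁻¹ • ((x' : E (d + 1)) - (y' : E (d + 1)))‖ = 1 := by
    rw [norm_smul, Real.norm_of_nonneg (by positivity), ← hz]
    field_simp
  set x : Sph (d + 1) := ⟨z⁻¹ • ((x' : E (d + 1)) - (y' : E (d + 1))), by simpa using hxn⟩ with hx
  set y : Sph (d + 1) := ⟨-(z⁻¹ • ((x' : E (d + 1)) - (y' : E (d + 1)))), by
    simpa using hxn⟩ with hy
  have e1 : inner ℝ (x : E (d + 1)) (x' : E (d + 1)) = z / 2 := by
    show inner ℝ (z⁻¹ • ((x' : E (d + 1)) - (y' : E (d + 1)))) (x' : E (d + 1)) = z / 2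
    rw [real_inner_smul_left, inner_sub_left, real_inner_self_eq_norm_sq, norm_sph,
      real_inner_comm, ← hc]
    field_simp
    linarith
  have e2 : inner ℝ (y : E (d + 1)) (y' : E (d + 1)) = z / 2 := by
    show inner ℝ (-(z⁻¹ • ((x' : E (d + 1)) - (y' : E (d + 1))))) (y' : E (d + 1)) = z / 2
    rw [inner_neg_left, real_inner_smul_left, inner_sub_left, real_inner_self_eq_norm_sq, norm_sph,
      ← hc]
    field_simp
    linarith
  have e3 : angle (x : E (d + 1)) (y : E (d + 1)) = Real.pi := by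
    show angle (z⁻¹ • ((x' : E (d + 1)) - (y' : E (d + 1))))
      (-(z⁻¹ • ((x' : E (d + 1)) - (y' : E (d + 1))))) = Real.pi
    apply angle_self_neg_of_nonzero
    intro h2
    rw [h2, norm_zero] at hxn
    exact zero_ne_one hxn
  have h2 := h x x' y' y (by rw [e1]; positivity) (by rw [e2]; positivity)
  rw [e1, e2, e3] at h2
  have hs0 : 0 ≤ Real.sin ρ := (Real.sin_pos_of_pos_of_lt_pi h0 (by linarith [Real.pi_pos])).le
  set w : ℝ := Real.sin ρ * (z / 2) with hw
  have hw0 : 0 ≤ w := by positivity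
  have hc1 : -1 ≤ c := by
    have := abs_real_inner_le_norm (x' : E (d + 1)) (y' : E (d + 1))
    rw [norm_sph, norm_sph, one_mul] at this
    exact (abs_le.1 this).1
  have hz4 : z ≤ 2 := by nlinarith
  have hw1 : w ≤ 1 := by
    have := Real.sin_le_one ρ
    nlinarith
  have e4 : capDist ρ x' y' = Real.pi - 2 * Real.arccos w := by
    unfold capDist
    rw [← hc]
    have e5 : Real.cos ρ ^ 2 + Real.sin ρ ^ 2 * c = Real.cos (Real.pi - 2 * Real.arccos w) := by
      rw [Real.cos_pi_sub, Real.cos_two_mul, Real.cos_arccos (by linarith) hw1]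
      have := Real.cos_sq_add_sin_sq ρ
      have e6 : w ^ 2 = Real.sin ρ ^ 2 * ((2 - 2 * c) / 4) := by
        rw [hw, ← hz2]; ring
      rw [e6]
      linarith
    rw [e5]
    apply Real.arccos_cos
    · have := Real.arccos_le_pi_div_two.2 hw0
      linarith
    · have := Real.arccos_nonneg w
      linarith
  rw [e4]
  linarith


/-- the hemisphere -/
theorem near_hemi {d : ℕ} (hd : 1 ≤ d) {ρ : ℝ} (h0 : 0 < ρ) (h1 : ρ < Real.pi / 2)
    (hR : Good2 d (Real.sin ρ)) {M : Type} [MetricSpace M] [ProperSpace M] {bd : Sph (d + 1) → M}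
    (S : NFill (d + 1) M bd (near bd fun _ => ρ)) (hS : RoundCol bd ρ) :
    (volume : Measure (E (d + 2))).toSphere univ / 2 ≤
      S.vol + ENNReal.ofReal
        ((sig (d + 1)).real univ * ∫ t in ρ..(Real.pi / 2), Real.sin t ^ d) := by
  rw [HEM.vol_half]
  have hc : Continuous fun t : ℝ => Real.sin t ^ d := by fun_prop
  rw [← intervalIntegral.integral_add_adjacent_intervals (hc.intervalIntegrable 0 ρ)
    (hc.intervalIntegrable ρ (Real.pi / 2)), mul_add]
  refine ENNReal.ofReal_add_le.trans ?_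
  exact add_le_add_left (near_cap hd h0 h1 hR S (cap_le bd ρ h0 h1 hS)) _

end Pool.Agent.H780.NV
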