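import Pool.Graph.R_pool_sql_team_seeded_63374d34.N526.CP.Reg

/-!
# Fillings of which only the part near the boundary is a manifold

Definitions.
-/

set_option autoImplicit false

open MeasureTheory Metric Set Filter Topology InnerProductGeometry

namespace Pool.Agent.H780.NV

open Pool.Agent.H241R3.FV Pool.Agent.N526.CP

/-- The subset `N` of the metric space `M` is an oriented Riemannian manifold of dimension `n` whose
boundary is the sphere `bd`: finitely many Riemannian charts (of the interior of `N`), injective and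
open, with orientation preserving and isometric transition maps, such that the parts `D` of the
domains of the charts form a partition of the complement of the boundary in `N`; `bd` is the
parametrisation of the boundary by the unit sphere; a collar of the boundary is parametrised by the
annulus `r < |x| ≤ 1`, bi-Lipschitz, with `col = bd` on the unit sphere, and the restriction to the
open annulus is one of the charts.  Nothing is assumed about `M` outside of `N`. -/
structure NFill (n : ℕ) (M : Type) [MetricSpace M] (bd : Sph n → M) (N : Set M) where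
  /-- index set of the charts -/
  ι : Type
  fin : Fintype ι
  /-- the charts -/
  chart : ι → RChart n M
  inj : ∀ i, InjOn (chart i).map (chart i).U
  open_map : ∀ i, ∀ V ⊆ (chart i).U, IsOpen V → IsOpen ((chart i).map '' V)
  off_bd : ∀ i, ∀ p ∈ (chart i).U, ∀ x, (chart i).map p ≠ bd x
  sub : ∀ i, ∀ p ∈ (chart i).U, (chart i).map p ∈ N
  bd_mem : ∀ x, bd x ∈ N
  cover : ∀ q ∈ N, (∃ x, bd x = q) ∨ ∃ i, ∃ p ∈ (chart i).D, (chart i).map p = q
  disj : ∀ i j, ∀ p ∈ (chart i).D, ∀ p' ∈ (chart j).D, (chart i).map p = (chart j).map p' → i = j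
  trans : ∀ i j, ∀ p ∈ (chart i).U, ∀ p' ∈ (chart j).U, (chart i).map p = (chart j).map p' →
    ∃ (τ : E n → E n) (T : E n →L[ℝ] E n), τ p = p' ∧
      (∀ᶠ y in 𝓝 p, τ y ∈ (chart j).U ∧ (chart j).map (τ y) = (chart i).map y) ∧
      HasFDerivAt τ T p ∧ 0 < T.det ∧ ∀ v, gnorm ((chart i).G p) v = gnorm ((chart j).G p') (T v)
  /-- inner radius of the collar -/
  r : ℝ
  r_pos : 0 < r
  r_lt : r < 1
  /-- the collar -/
  col : E n → M
  col_bd : ∀ x : Sph n, col x = bd x
  col_chart : ∃ i, (chart i).U = {x | r < ‖x‖ ∧ ‖x‖ < 1} ∧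
    ∀ x ∈ (chart i).U, (chart i).map x = col x
  col_open : IsOpen (col '' {x | r < ‖x‖ ∧ ‖x‖ ≤ 1})
  col_lip : ∃ K : ℝ, ∀ x y : E n, r < ‖x‖ → ‖x‖ ≤ 1 → r < ‖y‖ → ‖y‖ ≤ 1 →
    dist (col x) (col y) ≤ K * ‖x - y‖ ∧ ‖x - y‖ ≤ K * dist (col x) (col y)

instance NFill.instFin {n : ℕ} {M : Type} [MetricSpace M] {bd : Sph n → M} {N : Set M}
    (S : NFill n M bd N) : Fintype S.ι := S.fin

/-- The volume of `N`: the sum over the charts of the integrals of `√(det G)` over the parts `D`. -/
noncomputable def NFill.vol {n : ℕ} {M : Type} [MetricSpace M] {bd : Sph n → M} {N : Set M}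
    (S : NFill n M bd N) : ENNReal :=
  ∑ i, ∫⁻ p in (S.chart i).D, ENNReal.ofReal √((S.chart i).G p).det

/-- The volume of the part of `N` in the set `A`. -/
noncomputable def NFill.part {n : ℕ} {M : Type} [MetricSpace M] {bd : Sph n → M} {N : Set M}
    (S : NFill n M bd N) (A : Set M) : ENNReal :=
  ∑ i, ∫⁻ p in {p | p ∈ (S.chart i).D ∧ (S.chart i).map p ∈ A},
    ENNReal.ofReal √((S.chart i).G p).det

/-- The points at distance less than `r x` from some boundary point `bd x`. -/
def near {n : ℕ} {M : Type} [MetricSpace M] (bd : Sph n → M) (r : Sph n → ℝ) : Set M :=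
  {q | ∃ x, dist q (bd x) < r x}

/-- The union of `M` and of the round collar `{ρ ≤ r ≤ π/2}` of the boundary of the hemisphere, glued
along the parallel sphere at the distance `ρ` from the pole, is nonshortcutting: the curves which join
two points `x`, `y` of the boundary sphere and consist of a geodesic of the collar, a curve of `M` and
a geodesic of the collar have length at least the spherical distance of `x` and `y`. -/
def RoundCol {d : ℕ} {M : Type} [MetricSpace M] (bd : Sph (d + 1) → M) (ρ : ℝ) : Prop :=
  ∀ x x' y' y : Sph (d + 1), 0 ≤ inner ℝ (x : E (d + 1)) (x' : E (d + 1)) →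
    0 ≤ inner ℝ (y : E (d + 1)) (y' : E (d + 1)) →
    angle (x : E (d + 1)) (y : E (d + 1)) ≤
      Real.arccos (Real.sin ρ * inner ℝ (x : E (d + 1)) (x' : E (d + 1))) +
      dist (bd x') (bd y') +
      Real.arccos (Real.sin ρ * inner ℝ (y : E (d + 1)) (y' : E (d + 1)))

end Pool.Agent.H780.NV
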