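import Pool.Agent.H780.NV.Def

/-!
# Auxiliary definitions
-/

set_option autoImplicit false

open MeasureTheory Metric Set Filter Topology InnerProductGeometry

namespace Pool.Agent.H780.NV

open Pool.Agent.H241R3.FV Pool.Agent.N526.CP

/-- The integral of the Jacobian determinant. -/
noncomputable def jn {n : ℕ} {M : Type} [MetricSpace M] {bd : Sph n → M} {N : Set M}
    (S : NFill n M bd N) (v : M → E n) : ℝ :=
  ∑ i, ∫ p in (S.chart i).D, (fderiv ℝ (v ∘ (S.chart i).map) p).det

/-- A height function: `N = {h > 0}`, and the sets `{h ≥ δ}`, `δ > 0`, are compact. -/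
structure Hgt {M : Type} [MetricSpace M] (N : Set M) (h : M → ℝ) : Prop where
  nonneg : ∀ q, 0 ≤ h q
  lip : ∀ q q', h q ≤ h q' + dist q q'
  pos : ∀ q, 0 < h q ↔ q ∈ N
  bdd : ∃ B : ℝ, ∀ q, h q ≤ B
  cpt : ∀ δ : ℝ, 0 < δ → IsCompact {q | δ ≤ h q}

/-- Lipschitz maps bounded by a multiple of the height. -/
structure Cl {M W : Type} [MetricSpace M] [NormedAddCommGroup W] (h : M → ℝ) (K : NNReal)
    (v : M → W) : Prop where
  lip : LipschitzWith K v
  le : ∀ q, ‖v q‖ ≤ K * h q

end Pool.Agent.H780.NV
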