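import Pool.Agent.H780.NV.Def2

/-!
# Truncated families of functions (after `EXTF` and `FAMF` of the library)
-/

set_option autoImplicit false

open MeasureTheory Metric Set Filter Topology InnerProductGeometry

namespace Pool.Agent.H780.NV

open Pool.Agent.H241R3.FV Pool.Agent.N526.CP
open Pool.Agent.N526.CP.EXT (arcsin_lip iInf_le_add)
open Pool.Agent.N526.CP.EXTF (arcsin_le ref)
open Pool.Agent.N526.CP.FAM (chg integ cont_ip ip_rot asin_nonneg zf_dir)

/-- A family of `1`-Lipschitz functions with the boundary values `arcsin ⟨F x, θ⟩`, bounded by the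
height. -/
structure FamB {d : ℕ} {M : Type} [MetricSpace M] (bd : Sph (d + 1) → M) (h : M → ℝ) (s : ℝ)
    (F : E (d + 1) → E (d + 1)) (g : Sph (d + 1) → M → ℝ) : Prop where
  lip : ∀ θ q q', |g θ q - g θ q'| ≤ dist q q'
  lipθ : ∃ C : ℝ, ∀ θ θ' q, |g θ q - g θ' q| ≤ C * ‖(θ : E (d + 1)) - (θ' : E (d + 1))‖
  bdv : ∀ θ (x : Sph (d + 1)), g θ (bd x) = Real.arcsin (inner ℝ (F x) (θ : E (d + 1)))
  range : ∀ q, ‖∫ θ : Sph (d + 1), g θ q • (θ : E (d + 1)) ∂(sg (d + 1))‖ ≤ zf d s
  le : ∀ θ q, |g θ q| ≤ h q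

/-- The mirror inequality. -/
def Mirror {d : ℕ} {M : Type} (s : ℝ) (g : Sph (d + 1) → M → ℝ) : Prop :=
  ∀ (e : E (d + 1)), ‖e‖ = 1 → ∀ (θ θ' : Sph (d + 1)),
      (θ' : E (d + 1)) = (θ : E (d + 1)) - (2 * inner ℝ e (θ : E (d + 1))) • e →
      0 ≤ ip e θ → ∀ q, g θ q - g θ' q ≤ 2 * Real.arcsin (s * ip e θ)

/-- extension of the boundary functions -/
theorem ext_exists {d : ℕ} {M : Type} [MetricSpace M] (bd : Sph (d + 1) → M)
    {s : ℝ} (hs0 : 0 < s) (hs1 : s < 1) (F : E (d + 1) → E (d + 1))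
    (hF : ∀ x : Sph (d + 1), ‖F x‖ ≤ s)
    (hbd : ∀ x y : Sph (d + 1), hdist (F x) (F y) ≤ dist (bd x) (bd y)) :
    ∃ g : Sph (d + 1) → M → ℝ, (∀ θ q q', |g θ q - g θ q'| ≤ dist q q') ∧
      (∃ C : ℝ, ∀ θ θ' q, |g θ q - g θ' q| ≤ C * ‖(θ : E (d + 1)) - (θ' : E (d + 1))‖) ∧
      (∀ θ (x : Sph (d + 1)), g θ (bd x) = Real.arcsin (inner ℝ (F x) (θ : E (d + 1)))) ∧
      Mirror s g := by
  have hne : Nonempty (Sph (d + 1)) :=
    ⟨⟨EuclideanSpace.single 0 1, by simp⟩⟩
  let h : Sph (d + 1) → Sph (d + 1) → ℝ := fun θ x =>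
    Real.arcsin (inner ℝ (F (x : E (d + 1))) (θ : E (d + 1)))
  let g : Sph (d + 1) → M → ℝ := fun θ q => ⨅ x, (h θ x + dist q (bd x))
  have hlow : ∀ θ q x, -(Real.pi / 2) ≤ h θ x + dist q (bd x) := by
    intro θ q x
    have h2 : -(Real.pi / 2) ≤ h θ x := Real.neg_pi_div_two_le_arcsin _
    have h3 : 0 ≤ dist q (bd x) := dist_nonneg
    linarith
  have hin : ∀ θ x : Sph (d + 1), |inner ℝ (F (x : E (d + 1))) (θ : E (d + 1))| ≤ s := by
    intro θ x
    have := abs_real_inner_le_norm (F (x : E (d + 1))) (θ : E (d + 1))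
    rw [norm_sph, mul_one] at this
    exact this.trans (hF x)
  refine ⟨g, ?_, ?_, ?_, ?_⟩
  · intro θ q q'
    have key : ∀ q q', g θ q ≤ g θ q' + dist q q' := by
      intro q q'
      refine iInf_le_add (hlow θ q) fun x => ?_
      have := dist_triangle q q' (bd x)
      linarith
    rw [abs_le]
    constructor
    · have := key q' q
      rw [dist_comm q' q] at this
      linarith
    · have := key q q'
      linarith
  · refine ⟨1 / √(1 - s ^ 2) * s, ?_⟩
    have key : ∀ θ θ' q, g θ q ≤ g θ' q +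
        1 / √(1 - s ^ 2) * s * ‖(θ : E (d + 1)) - (θ' : E (d + 1))‖ := by
      intro θ θ' q
      refine iInf_le_add (hlow θ q) fun x => ?_
      have h2 := arcsin_lip hs0 hs1 (hin θ x) (hin θ' x)
      have h3 : |inner ℝ (F (x : E (d + 1))) (θ : E (d + 1)) -
          inner ℝ (F (x : E (d + 1))) (θ' : E (d + 1))| ≤
          s * ‖(θ : E (d + 1)) - (θ' : E (d + 1))‖ := by
        rw [← inner_sub_right]
        exact (abs_real_inner_le_norm _ _).trans
          (mul_le_mul_of_nonneg_right (hF x) (norm_nonneg _))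
      have h4 : h θ x - h θ' x ≤ 1 / √(1 - s ^ 2) * (s * ‖(θ : E (d + 1)) - (θ' : E (d + 1))‖) :=
        (le_abs_self _).trans (h2.trans (mul_le_mul_of_nonneg_left h3 (by positivity)))
      rw [← mul_assoc] at h4
      linarith
    intro θ θ' q
    rw [abs_le]
    constructor
    · have := key θ' θ q
      rw [norm_sub_rev] at this
      linarith
    · have := key θ θ' q
      linarith
  · intro θ x
    apply le_antisymm
    · have h2 : g θ (bd x) ≤ h θ x + dist (bd x) (bd x) :=
        ciInf_le (f := fun y => h θ y + dist (bd x) (bd y))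
          ⟨-(Real.pi / 2), by rintro _ ⟨y, rfl⟩; exact hlow θ (bd x) y⟩ x
      rw [dist_self, add_zero] at h2
      exact h2
    · refine le_ciInf fun y => ?_
      have h2 := arcsin_le ((hF x).trans hs1.le) ((hF y).trans hs1.le) θ
      have h3 := hbd x y
      change h θ x ≤ _
      change h θ x - h θ y ≤ _ at h2
      linarith
  · intro e he θ θ' hθ' hpos q
    refine sub_le_iff_le_add'.2 ?_
    refine iInf_le_add (hlow θ q) fun x => ?_
    have h2 := ref REF.t hs0 hs1 (hF x) θ e (θ' : E (d + 1)) he hpos hθ'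
    change h θ x - h θ' x ≤ _ at h2
    linarith

/-! ### Truncation -/

/-- truncation of `t` to the interval `[-h, h]` -/
noncomputable def cla (h t : ℝ) : ℝ := max (-h) (min h t)

theorem cla_abs {h : ℝ} (h0 : 0 ≤ h) (t : ℝ) : |cla h t| ≤ h := by
  unfold cla
  rw [abs_le]
  exact ⟨le_max_left _ _, max_le (by linarith) (min_le_left _ _)⟩

theorem cla_eq {h t : ℝ} (ht : |t| ≤ h) : cla h t = t := by
  rw [abs_le] at ht
  unfold cla
  rw [min_eq_right ht.2, max_eq_right ht.1]

theorem cla_le {h h' t t' c : ℝ} (h1 : h ≤ h' + c) (h2 : h' ≤ h + c) (h3 : t ≤ t' + c) :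
    cla h t ≤ cla h' t' + c := by
  unfold cla
  refine max_le ?_ ?_
  · have := le_max_left (-h') (min h' t')
    linarith
  · have h4 : min h t ≤ min h' t' + c := by
      rcases min_cases h' t' with ⟨e, -⟩ | ⟨e, -⟩
      · rw [e]
        exact (min_le_left _ _).trans h1
      · rw [e]
        exact (min_le_right _ _).trans h3
    exact h4.trans (by linarith [le_max_right (-h') (min h' t')])

/-- the range of the linear statistic -/
theorem range_of_mirror {d : ℕ} (hd : 1 ≤ d) {M : Type} {s : ℝ} (hs0 : 0 < s)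
    (g : Sph (d + 1) → M → ℝ)
    (g2 : ∃ C : ℝ, ∀ θ θ' q, |g θ q - g θ' q| ≤ C * ‖(θ : E (d + 1)) - (θ' : E (d + 1))‖)
    (g4 : Mirror s g) (q : M) :
    ‖∫ θ : Sph (d + 1), g θ q • (θ : E (d + 1)) ∂(sg (d + 1))‖ ≤ zf d s := by
  obtain ⟨hprob, hrot, -⟩ := Pool.Agent.N979.CP.Fin.sph d hd
  obtain ⟨C, g2⟩ := g2
  have hgc : Continuous fun θ : Sph (d + 1) => g θ q := by
    have hlip : LipschitzWith (Real.toNNReal C) fun θ : Sph (d + 1) => g θ q := by
      refine LipschitzWith.of_dist_le_mul fun θ θ' => ?_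
      rw [Real.dist_eq]
      refine (g2 θ θ' q).trans ?_
      rw [Subtype.dist_eq, dist_eq_norm]
      exact mul_le_mul_of_nonneg_right (Real.le_coe_toNNReal C) (norm_nonneg _)
    exact hlip.continuous
  have hzf0 : 0 ≤ zf d (s) := integral_nonneg fun θ => asin_nonneg hs0.le _
  set Y : E (d + 1) := ∫ θ : Sph (d + 1), g θ q • (θ : E (d + 1)) ∂(sg (d + 1)) with hY
  by_cases hY0 : Y = 0
  · rw [hY0, norm_zero]
    exact hzf0
  have hYn : 0 < ‖Y‖ := norm_pos_iff.2 hY0
  set e : E (d + 1) := ‖Y‖⁻¹ • Y with he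
  have he1 : ‖e‖ = 1 := by
    rw [he, norm_smul, norm_inv, norm_norm, inv_mul_cancel₀ hYn.ne']
  have hint : Integrable (fun θ : Sph (d + 1) => g θ q • (θ : E (d + 1))) (sg (d + 1)) :=
    (hgc.smul continuous_subtype_val).integrable_of_hasCompactSupport
      (HasCompactSupport.of_compactSpace _)
  have hYe : ‖Y‖ = ∫ θ : Sph (d + 1), g θ q * ip e θ ∂(sg (d + 1)) := by
    have h1 : inner ℝ e Y = ‖Y‖ := by
      rw [he, real_inner_smul_left, real_inner_self_eq_norm_sq]
      field_simp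
    rw [← h1, hY, ← integral_inner hint e]
    refine integral_congr_ae (Eventually.of_forall fun θ => ?_)
    show inner ℝ e (g θ q • (θ : E (d + 1))) = g θ q * inner ℝ e (θ : E (d + 1))
    rw [real_inner_smul_right]
  -- the reflection
  set R : E (d + 1) ≃ₗᵢ[ℝ] E (d + 1) := Submodule.reflection (ℝ ∙ e)ᗮ with hR
  have hRv : ∀ v : E (d + 1), R v = v - (2 * inner ℝ e v) • e := by
    intro v
    rw [hR, Submodule.reflection_orthogonal_apply, Submodule.reflection_singleton_apply]
    rw [he1]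
    simp only [one_pow, div_one, RCLike.ofReal_real_eq_id, id]
    rw [neg_sub, two_smul, two_mul, add_smul]
  have hRe : ∀ θ : Sph (d + 1), ip e (rot R θ) = -ip e θ := by
    intro θ
    show inner ℝ e (R (θ : E (d + 1))) = -inner ℝ e (θ : E (d + 1))
    rw [hRv, inner_sub_right, real_inner_smul_right, real_inner_self_eq_norm_sq, he1]
    ring
  have hRR : ∀ θ : Sph (d + 1), (θ : E (d + 1)) =
      (rot R θ : E (d + 1)) - (2 * inner ℝ e (rot R θ : E (d + 1))) • e := by
    intro θ
    have h1 : inner ℝ e (rot R θ : E (d + 1)) = -inner ℝ e (θ : E (d + 1)) := hRe θ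
    rw [h1]
    show (θ : E (d + 1)) = R (θ : E (d + 1)) - _
    rw [hRv]
    module
  have hpt : ∀ θ : Sph (d + 1), (g θ q - g (rot R θ) q) * ip e θ ≤
      2 * (Real.arcsin (s * ip e θ) * ip e θ) := by
    intro θ
    rcases le_total 0 (ip e θ) with h | h
    · have h1 := g4 e he1 θ (rot R θ) (hRv θ) h q
      have := mul_le_mul_of_nonneg_right h1 h
      linarith
    · have h0 : 0 ≤ ip e (rot R θ) := by
        rw [hRe]
        linarith
      have h1 := g4 e he1 (rot R θ) θ (hRR θ) h0 q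
      rw [hRe, mul_neg, Real.arcsin_neg] at h1
      have h2 := mul_le_mul_of_nonneg_right h1 (neg_nonneg.2 h)
      nlinarith
  have hgR : Continuous fun θ : Sph (d + 1) => g (rot R θ) q := by
    have hrc : Continuous (rot R : Sph (d + 1) → Sph (d + 1)) := by
      unfold rot
      exact Continuous.subtype_mk (R.continuous.comp continuous_subtype_val) _
    exact hgc.comp hrc
  have h2 : ∫ θ : Sph (d + 1), g θ q * ip e θ ∂(sg (d + 1)) =
      -∫ θ : Sph (d + 1), g (rot R θ) q * ip e θ ∂(sg (d + 1)) := by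
    rw [← chg (hrot R) (F := fun θ => g θ q * ip e θ) (hgc.mul (cont_ip e)), ← integral_neg]
    refine integral_congr_ae (Eventually.of_forall fun θ => ?_)
    show g (rot R θ) q * ip e (rot R θ) = -(g (rot R θ) q * ip e θ)
    rw [hRe]
    ring
  have h3 : 2 * ‖Y‖ = ∫ θ : Sph (d + 1), (g θ q - g (rot R θ) q) * ip e θ ∂(sg (d + 1)) := by
    have h4 : (fun θ : Sph (d + 1) => (g θ q - g (rot R θ) q) * ip e θ) =
        fun θ => g θ q * ip e θ - g (rot R θ) q * ip e θ := by
      funext θ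
      ring
    have i1 : Integrable (fun θ : Sph (d + 1) => g θ q * ip e θ) (sg (d + 1)) :=
      integ (hgc.mul (cont_ip e))
    have i2 : Integrable (fun θ : Sph (d + 1) => g (rot R θ) q * ip e θ) (sg (d + 1)) :=
      integ (hgR.mul (cont_ip e))
    rw [h4, integral_sub i1 i2]
    linarith
  have h5 : ∫ θ : Sph (d + 1), (g θ q - g (rot R θ) q) * ip e θ ∂(sg (d + 1)) ≤
      ∫ θ : Sph (d + 1), 2 * (Real.arcsin (s * ip e θ) * ip e θ) ∂(sg (d + 1)) := by
    refine integral_mono (integ ((hgc.sub hgR).mul (cont_ip e))) (integ ?_) hpt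
    exact continuous_const.mul
      ((Real.continuous_arcsin.comp (continuous_const.mul (cont_ip e))).mul (cont_ip e))
  rw [integral_const_mul, zf_dir hrot _ he1] at h5
  linarith

/-- The truncated family. -/
theorem fam_exists {d : ℕ} (hd : 1 ≤ d) {M : Type} [MetricSpace M] (bd : Sph (d + 1) → M)
    {s : ℝ} (hs0 : 0 < s) (hs1 : s < 1) (F : E (d + 1) → E (d + 1))
    (hF : ∀ x : Sph (d + 1), ‖F x‖ ≤ s)
    (hbd : ∀ x y : Sph (d + 1), hdist (F x) (F y) ≤ dist (bd x) (bd y))
    (h : M → ℝ) (h0 : ∀ q, 0 ≤ h q) (h1 : ∀ q q', h q ≤ h q' + dist q q')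
    (h2 : ∀ x : Sph (d + 1), Real.arcsin ‖F x‖ ≤ h (bd x)) :
    ∃ g : Sph (d + 1) → M → ℝ, FamB bd h s F g := by
  obtain ⟨g, g1, ⟨C, g2⟩, g3, g4⟩ := ext_exists bd hs0 hs1 F hF hbd
  have c1 : ∀ θ q q', |cla (h q) (g θ q) - cla (h q') (g θ q')| ≤ dist q q' := by
    intro θ q q'
    have key : ∀ q q', cla (h q) (g θ q) ≤ cla (h q') (g θ q') + dist q q' := by
      intro q q'
      refine cla_le (h1 q q') (by rw [dist_comm]; exact h1 q' q) ?_
      have := (abs_le.1 (g1 θ q q')).2
      linarith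
    rw [abs_le]
    constructor
    · have := key q' q
      rw [dist_comm] at this
      linarith
    · linarith [key q q']
  have c2 : ∀ θ θ' q, |cla (h q) (g θ q) - cla (h q) (g θ' q)| ≤
      C * ‖(θ : E (d + 1)) - (θ' : E (d + 1))‖ := by
    have key : ∀ θ θ' q, cla (h q) (g θ q) ≤ cla (h q) (g θ' q) +
        C * ‖(θ : E (d + 1)) - (θ' : E (d + 1))‖ := by
      intro θ θ' q
      have h4 := g2 θ θ' q
      have h5 : 0 ≤ C * ‖(θ : E (d + 1)) - (θ' : E (d + 1))‖ := (abs_nonneg _).trans h4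
      refine cla_le (by linarith) (by linarith) ?_
      linarith [(abs_le.1 h4).2]
    intro θ θ' q
    rw [abs_le]
    constructor
    · have := key θ' θ q
      rw [norm_sub_rev] at this
      linarith
    · linarith [key θ θ' q]
  have c4 : Mirror s fun θ q => cla (h q) (g θ q) := by
    intro e he θ θ' hθ' hpos q
    have h4 := g4 e he θ θ' hθ' hpos q
    have h5 : 0 ≤ Real.arcsin (s * ip e θ) := Real.arcsin_nonneg.2 (mul_nonneg hs0.le hpos)
    have := cla_le (h := h q) (h' := h q) (t := g θ q) (t' := g θ' q)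
      (c := 2 * Real.arcsin (s * ip e θ)) (by linarith) (by linarith) (by linarith)
    simp only
    linarith
  refine ⟨fun θ q => cla (h q) (g θ q), c1, ⟨C, c2⟩, fun θ x => ?_,
    range_of_mirror hd hs0 _ ⟨C, c2⟩ c4, fun θ q => cla_abs (h0 q) _⟩
  rw [g3]
  refine cla_eq ?_
  have h5 : |inner ℝ (F (x : E (d + 1))) (θ : E (d + 1))| ≤ ‖F x‖ := by
    have := abs_real_inner_le_norm (F (x : E (d + 1))) (θ : E (d + 1))
    rwa [norm_sph, mul_one] at this
  refine le_trans ?_ (h2 x)
  rw [abs_le] at h5 ⊢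
  constructor
  · rw [← Real.arcsin_neg]
    exact Real.monotone_arcsin h5.1
  · exact Real.monotone_arcsin h5.2

/-! ### The height -/

/-- the height -/
noncomputable def hgt {n : ℕ} {M : Type} [MetricSpace M] (bd : Sph n → M) (r : Sph n → ℝ) (q : M) :
    ℝ := ⨆ x, max 0 (r x - dist q (bd x))

section

variable {n : ℕ} {M : Type} [MetricSpace M] {bd : Sph n → M} {r : Sph n → ℝ} {B : ℝ}

theorem hgt_bdd (hr : ∀ x, r x ≤ B) (q : M) :
    BddAbove (range fun x => max 0 (r x - dist q (bd x))) := by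
  refine ⟨max 0 B, ?_⟩
  rintro _ ⟨x, rfl⟩
  refine max_le_max le_rfl ?_
  linarith [hr x, dist_nonneg (x := q) (y := bd x)]

theorem le_hgt (hr : ∀ x, r x ≤ B) (q : M) (x : Sph n) : r x - dist q (bd x) ≤ hgt bd r q :=
  (le_max_right _ _).trans (le_ciSup (hgt_bdd hr q) x)

theorem isHgt [Nonempty (Sph n)] [ProperSpace M] (hr : ∀ x, r x ≤ B)
    (hb : Bornology.IsBounded (range bd)) : Hgt (near bd r) (hgt bd r) := by
  have hnn : ∀ q, 0 ≤ hgt bd r q := by
    intro q
    obtain ⟨x⟩ := (inferInstance : Nonempty (Sph n))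
    exact (le_max_left _ _).trans (le_ciSup (hgt_bdd hr q) x)
  have hlip : ∀ q q', hgt bd r q ≤ hgt bd r q' + dist q q' := by
    intro q q'
    refine ciSup_le fun x => max_le ?_ ?_
    · linarith [hnn q', dist_nonneg (x := q) (y := q')]
    · have h1 := le_hgt (bd := bd) hr q' x
      have h2 := dist_triangle q' q (bd x)
      rw [dist_comm q' q] at h2
      linarith
  have hpos : ∀ q, 0 < hgt bd r q ↔ q ∈ near bd r := by
    intro q
    constructor
    · intro h
      obtain ⟨x, hx⟩ := exists_lt_of_lt_ciSup h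
      rcases lt_max_iff.1 hx with h1 | h1
      · exact absurd h1 (lt_irrefl _)
      · exact ⟨x, by linarith⟩
    · rintro ⟨x, hx⟩
      exact lt_of_lt_of_le (by linarith) (le_hgt hr q x)
  have hB : ∀ q, hgt bd r q ≤ max 0 B := by
    intro q
    refine ciSup_le fun x => max_le_max le_rfl ?_
    linarith [hr x, dist_nonneg (x := q) (y := bd x)]
  refine ⟨hnn, hlip, hpos, ⟨max 0 B, hB⟩, fun δ hδ => ?_⟩
  have hcont : Continuous (hgt bd r) := by
    have h1 : LipschitzWith 1 (hgt bd r) := by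
      refine LipschitzWith.of_dist_le_mul fun q q' => ?_
      rw [Real.dist_eq, NNReal.coe_one, one_mul, abs_le]
      constructor
      · have := hlip q' q
        rw [dist_comm] at this
        linarith
      · linarith [hlip q q']
    exact h1.continuous
  have hcl : IsClosed {q | δ ≤ hgt bd r q} := isClosed_le continuous_const hcont
  obtain ⟨x0⟩ := (inferInstance : Nonempty (Sph n))
  obtain ⟨R, hR⟩ := hb.subset_closedBall (bd x0)
  have hsub : {q | δ ≤ hgt bd r q} ⊆ closedBall (bd x0) (R + B) := by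
    intro q hq
    have h1 : 0 < hgt bd r q := lt_of_lt_of_le hδ hq
    obtain ⟨x, hx⟩ := (hpos q).1 h1
    have h2 := hR (mem_range_self x)
    rw [mem_closedBall] at h2 ⊢
    have h3 := dist_triangle q (bd x) (bd x0)
    linarith [hr x]
  exact (isCompact_closedBall _ _).of_isClosed_subset hcl hsub

end

end Pool.Agent.H780.NV
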