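import Pool.Agent.H780.NV.Ext

/-!
# Lipschitz properties of the maps (after `LIPF` of the library)
-/

set_option autoImplicit false

open MeasureTheory Metric Set Filter Topology InnerProductGeometry Matrix

namespace Pool.Agent.H780.NV

open Pool.Agent.H241R3.FV Pool.Agent.N526.CP Pool.Agent.N526.CP.LIP

/-! ### the family -/

section

variable {d : ℕ} {M : Type} [MetricSpace M] {bd : Sph (d + 1) → M} {h : M → ℝ} {s : ℝ}
  {F : E (d + 1) → E (d + 1)} {g : Sph (d + 1) → M → ℝ}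

theorem cont_g (hg : FamB bd h s F g) : Continuous (fun z : Sph (d + 1) × M => g z.1 z.2) := by
  obtain ⟨C, hC⟩ := hg.lipθ
  have h1 : LipschitzWith (Real.toNNReal C + 1) (Function.uncurry g) := by
    refine LipschitzWith.uncurry (fun q => ?_) (fun θ => ?_)
    · refine LipschitzWith.of_dist_le' fun θ θ' => ?_
      rw [Real.dist_eq, Subtype.dist_eq, dist_eq_norm]
      exact hC θ θ' q
    · refine LipschitzWith.of_dist_le_mul fun q q' => ?_
      rw [Real.dist_eq, NNReal.coe_one, one_mul]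
      exact hg.lip θ q q'
  exact h1.continuous

theorem cont_int (hg : FamB bd h s F g) (q : M) :
    Continuous (fun θ : Sph (d + 1) => g θ q • (θ : E (d + 1))) := by
  have h1 : Continuous (fun θ : Sph (d + 1) => g θ q) :=
    (cont_g hg).comp (Continuous.prodMk continuous_id continuous_const)
  exact h1.smul continuous_subtype_val

theorem int_lip [IsProbabilityMeasure (sg (d + 1))] (hg : FamB bd h s F g) (q q' : M) :
    ‖∫ θ : Sph (d + 1), g θ q • (θ : E (d + 1)) ∂(sg (d + 1)) -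
      ∫ θ : Sph (d + 1), g θ q' • (θ : E (d + 1)) ∂(sg (d + 1))‖ ≤ dist q q' := by
  have hint : ∀ q, Integrable (fun θ : Sph (d + 1) => g θ q • (θ : E (d + 1))) (sg (d + 1)) :=
    fun q => (cont_int hg q).integrable_of_hasCompactSupport
      (HasCompactSupport.of_compactSpace _)
  rw [← integral_sub (hint q) (hint q')]
  have h1 := norm_integral_le_of_norm_le_const (μ := sg (d + 1)) (C := dist q q')
    (f := fun θ : Sph (d + 1) => g θ q • (θ : E (d + 1)) - g θ q' • (θ : E (d + 1)))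
    (Eventually.of_forall fun θ => by
      rw [← sub_smul, norm_smul, norm_sph, mul_one, Real.norm_eq_abs]
      exact hg.lip θ q q')
  rwa [probReal_univ, mul_one] at h1

end

theorem int_le {d : ℕ} {M : Type} [MetricSpace M] {bd : Sph (d + 1) → M} {h : M → ℝ} {s : ℝ}
    {F : E (d + 1) → E (d + 1)} {g : Sph (d + 1) → M → ℝ}
    [IsProbabilityMeasure (sg (d + 1))] (hg : FamB bd h s F g) (q : M) :
    ‖∫ θ : Sph (d + 1), g θ q • (θ : E (d + 1)) ∂(sg (d + 1))‖ ≤ h q := by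
  have h1 := norm_integral_le_of_norm_le_const (μ := sg (d + 1)) (C := h q)
    (f := fun θ : Sph (d + 1) => g θ q • (θ : E (d + 1)))
    (Eventually.of_forall fun θ => by
      rw [norm_smul, norm_sph, mul_one, Real.norm_eq_abs]
      exact hg.le θ q)
  rwa [probReal_univ, mul_one] at h1

theorem Uf_zero {n : ℕ} (θ : Sph n) : Uf θ (0 : E n) = 0 := by
  unfold Uf ip
  simp

theorem Hf_zero {d : ℕ} : Hf (0 : E (d + 1)) = 0 := by
  unfold Hf
  simp

theorem Ri_zero {d : ℕ} (hd : 1 ≤ d) : Ri (0 : E (d + 1)) = 0 := by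
  have h1 := (Pool.Agent.N979.CP.Fin.inv d hd).1 0 (by simp)
  have h2 : Zf (0 : E (d + 1)) = 0 := by
    unfold Zf ip
    simp
  rwa [h2] at h1

/-- the Lipschitz properties -/
theorem lip {d : ℕ} (hd : 1 ≤ d) {M : Type} [MetricSpace M] {bd : Sph (d + 1) → M}
    {h : M → ℝ} (hh0 : ∀ q, 0 ≤ h q) {s : ℝ} {F : E (d + 1) → E (d + 1)}
    {g : Sph (d + 1) → M → ℝ} (hs0 : 0 < s)
    (hs1 : s < 1) (hg : FamB bd h s F g) {L : NNReal} (hL : LipschitzOnWith L F (closedBall 0 1))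
    (hF : ∀ y ∈ closedBall (0 : E (d + 1)) 1, ‖F y‖ ≤ s) :
    ∃ K : NNReal, (∀ θ, Cl h K (Psi g θ)) ∧ Cl h K (Hf ∘ Xf g) ∧
    (∀ θ : Sph (d + 1), LipschitzOnWith K (PsiF F θ) (closedBall 0 1)) ∧
    LipschitzOnWith K (Hf ∘ F) (closedBall 0 1) ∧
    (∀ (θ x : Sph (d + 1)), Psi g θ (bd x) = PsiF F θ (x : E (d + 1))) ∧
    (∀ x : Sph (d + 1), Hf (Xf g (bd x)) = Hf (F (x : E (d + 1)))) ∧
    Continuous (fun z : Sph (d + 1) × M => Psi g z.1 z.2) := by
  obtain ⟨hP, -, -⟩ := Pool.Agent.N979.CP.Fin.sph d hd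
  obtain ⟨i1, i2, i3⟩ := Pool.Agent.N979.CP.Fin.inv d hd
  have hz0 : 0 ≤ zf d s := integral_nonneg fun θ => Pool.Agent.N526.CP.FAM.asin_nonneg hs0.le _
  have hXh : ∀ q, ‖Xf g q‖ ≤ (d + 1) * h q := by
    intro q
    have e1 := i3 s hs0 hs1 _ 0 (hg.range q) (by rw [norm_zero]; exact hz0)
    rw [Ri_zero hd, sub_zero, sub_zero] at e1
    exact e1.trans (mul_le_mul_of_nonneg_left (int_le hg q) (by positivity))
  have hXn : ∀ q, ‖Xf g q‖ ≤ s := fun q => (i2 s hs0 hs1 _ (hg.range q)).1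
  have hXl : ∀ q q', ‖Xf g q - Xf g q'‖ ≤ (d + 1) * dist q q' := by
    intro q q'
    refine (i3 s hs0 hs1 _ _ (hg.range q) (hg.range q')).trans ?_
    exact mul_le_mul_of_nonneg_left (int_lip hg q q') (by positivity)
  obtain ⟨c, hcdef⟩ : ∃ c, c = (√(1 - s ^ 2))⁻¹ := ⟨_, rfl⟩
  have hc0 : 0 ≤ c := by rw [hcdef]; positivity
  obtain ⟨K1, hK1def⟩ : ∃ K1, K1 = 2 * c + 4 * c ^ 3 := ⟨_, rfl⟩
  obtain ⟨K2, hK2def⟩ : ∃ K2, K2 = 2 + c * (c + 4 * c ^ 3) := ⟨_, rfl⟩
  have hK1 : 0 ≤ K1 := by rw [hK1def]; positivity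
  have hK2 : 0 ≤ K2 := by rw [hK2def]; positivity
  have hU : ∀ (θ : Sph (d + 1)) (X Y : E (d + 1)), ‖X‖ ≤ s → ‖Y‖ ≤ s →
      ‖Uf θ X - Uf θ Y‖ ≤ K1 * ‖X - Y‖ := by
    intro θ X Y hX hY
    have h1 := Uf_lip hs0 hs1 θ hX hY
    rw [← hcdef, ← hK1def] at h1
    exact h1
  have hH : ∀ (X Y : E (d + 1)), ‖X‖ ≤ s → ‖Y‖ ≤ s →
      ‖Hf X - Hf Y‖ ≤ K2 * ‖X - Y‖ := by
    intro X Y hX hY
    have h1 := Hf_lip hs0 hs1 hX hY
    rw [← hcdef, ← hK2def] at h1
    exact h1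
  have hL0 : (0 : ℝ) ≤ L := L.2
  have hsd : ∀ y ∈ closedBall (0 : E (d + 1)) 1, ∀ y' ∈ closedBall (0 : E (d + 1)) 1,
      ‖F y - F y'‖ ≤ L * ‖y - y'‖ := by
    intro y hy y' hy'
    have h1 := hL.dist_le_mul y hy y' hy'
    rwa [dist_eq_norm, dist_eq_norm] at h1
  have hbd : ∀ x : Sph (d + 1), Xf g (bd x) = F (x : E (d + 1)) := by
    intro x
    have h1 : ∫ θ : Sph (d + 1), g θ (bd x) • (θ : E (d + 1)) ∂(sg (d + 1)) =
        Zf (F (x : E (d + 1))) := by
      unfold Zf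
      congr 1
      funext θ
      rw [hg.bdv]
      rfl
    unfold Xf
    rw [h1]
    apply i1
    refine lt_of_le_of_lt (hF _ ?_) hs1
    rw [mem_closedBall_zero_iff, norm_sph]
  have hD : (0 : ℝ) ≤ d + 1 := by positivity
  obtain ⟨K, hK⟩ : ∃ K : ℝ, K = K1 * (d + 1) + K2 * (d + 1) + K1 * L + K2 * L + c * L + 1 := ⟨_, rfl⟩
  have hKp : 0 ≤ K := by rw [hK]; positivity
  have p1 : 0 ≤ K1 * (d + 1) := by positivity
  have p2 : 0 ≤ K2 * (d + 1) := by positivity
  have p3 : 0 ≤ K1 * L := by positivity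
  have p4 : 0 ≤ K2 * L := by positivity
  have p5 : 0 ≤ c * L := by positivity
  refine ⟨⟨K, hKp⟩, fun θ => ⟨?_, ?_⟩, ⟨?_, ?_⟩, fun θ => ?_, ?_, fun θ x => ?_, fun x => ?_, ?_⟩
  · refine LipschitzWith.of_dist_le_mul fun q q' => ?_
    rw [dist_eq_norm]
    change ‖Psi g θ q - Psi g θ q'‖ ≤ K * dist q q'
    have e : Psi g θ q - Psi g θ q' = (Uf θ (Xf g q) - Uf θ (Xf g q')) +
        (g θ q - g θ q') • (θ : E (d + 1)) := by
      unfold Psi
      module
    rw [e]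
    calc ‖(Uf θ (Xf g q) - Uf θ (Xf g q')) + (g θ q - g θ q') • (θ : E (d + 1))‖ ≤
        ‖Uf θ (Xf g q) - Uf θ (Xf g q')‖ + ‖(g θ q - g θ q') • (θ : E (d + 1))‖ :=
          norm_add_le _ _
      _ = ‖Uf θ (Xf g q) - Uf θ (Xf g q')‖ + |g θ q - g θ q'| := by
          rw [norm_smul, norm_sph, mul_one, Real.norm_eq_abs]
      _ ≤ K1 * ((d + 1) * dist q q') + dist q q' :=
          add_le_add ((hU θ _ _ (hXn q) (hXn q')).trans
            (mul_le_mul_of_nonneg_left (hXl q q') hK1)) (hg.lip θ q q')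
      _ = (K1 * (d + 1) + 1) * dist q q' := by ring
      _ ≤ K * dist q q' := mul_le_mul_of_nonneg_right (by rw [hK]; linarith) dist_nonneg
  · intro q
    change ‖Psi g θ q‖ ≤ K * h q
    unfold Psi
    have e1 := hU θ (Xf g q) 0 (hXn q) (by rw [norm_zero]; exact hs0.le)
    rw [Uf_zero, sub_zero, sub_zero] at e1
    calc ‖Uf θ (Xf g q) + g θ q • (θ : E (d + 1))‖ ≤ ‖Uf θ (Xf g q)‖ + ‖g θ q • (θ : E (d + 1))‖ :=
          norm_add_le _ _
      _ = ‖Uf θ (Xf g q)‖ + |g θ q| := by rw [norm_smul, norm_sph, mul_one, Real.norm_eq_abs]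
      _ ≤ K1 * ((d + 1) * h q) + h q :=
          add_le_add (e1.trans (mul_le_mul_of_nonneg_left (hXh q) hK1)) (hg.le θ q)
      _ = (K1 * (d + 1) + 1) * h q := by ring
      _ ≤ K * h q := mul_le_mul_of_nonneg_right (by rw [hK]; linarith) (hh0 q)
  · refine LipschitzWith.of_dist_le_mul fun q q' => ?_
    rw [dist_eq_norm]
    change ‖Hf (Xf g q) - Hf (Xf g q')‖ ≤ K * dist q q'
    calc ‖Hf (Xf g q) - Hf (Xf g q')‖ ≤ K2 * ((d + 1) * dist q q') :=
          (hH _ _ (hXn q) (hXn q')).trans (mul_le_mul_of_nonneg_left (hXl q q') hK2)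
      _ = (K2 * (d + 1)) * dist q q' := by ring
      _ ≤ K * dist q q' := mul_le_mul_of_nonneg_right (by rw [hK]; linarith) dist_nonneg
  · intro q
    change ‖Hf (Xf g q)‖ ≤ K * h q
    have e1 := hH (Xf g q) 0 (hXn q) (by rw [norm_zero]; exact hs0.le)
    rw [Hf_zero, sub_zero, sub_zero] at e1
    calc ‖Hf (Xf g q)‖ ≤ K2 * ((d + 1) * h q) :=
          e1.trans (mul_le_mul_of_nonneg_left (hXh q) hK2)
      _ = (K2 * (d + 1)) * h q := by ring
      _ ≤ K * h q := mul_le_mul_of_nonneg_right (by rw [hK]; linarith) (hh0 q)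
  · refine LipschitzOnWith.of_dist_le_mul fun y hy y' hy' => ?_
    rw [dist_eq_norm, dist_eq_norm]
    change ‖PsiF F θ y - PsiF F θ y'‖ ≤ K * ‖y - y'‖
    have e : PsiF F θ y - PsiF F θ y' = (Uf θ (F y) - Uf θ (F y')) +
        (Real.arcsin (ip (F y) θ) - Real.arcsin (ip (F y') θ)) • (θ : E (d + 1)) := by
      unfold PsiF
      module
    have h1 : |Real.arcsin (ip (F y) θ) - Real.arcsin (ip (F y') θ)| ≤ c * (L * ‖y - y'‖) := by
      have h2 := asin_lip hs0 hs1 ((ip_le (F y) θ).trans (hF y hy))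
        ((ip_le (F y') θ).trans (hF y' hy'))
      rw [← hcdef, ip_sub] at h2
      exact h2.trans (mul_le_mul_of_nonneg_left ((ip_le _ _).trans (hsd y hy y' hy')) hc0)
    rw [e]
    calc ‖(Uf θ (F y) - Uf θ (F y')) +
        (Real.arcsin (ip (F y) θ) - Real.arcsin (ip (F y') θ)) • (θ : E (d + 1))‖ ≤
        ‖Uf θ (F y) - Uf θ (F y')‖ +
        ‖(Real.arcsin (ip (F y) θ) - Real.arcsin (ip (F y') θ)) • (θ : E (d + 1))‖ :=
          norm_add_le _ _
      _ = ‖Uf θ (F y) - Uf θ (F y')‖ +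
        |Real.arcsin (ip (F y) θ) - Real.arcsin (ip (F y') θ)| := by
          rw [norm_smul, norm_sph, mul_one, Real.norm_eq_abs]
      _ ≤ K1 * (L * ‖y - y'‖) + c * (L * ‖y - y'‖) :=
          add_le_add ((hU θ _ _ (hF y hy) (hF y' hy')).trans
            (mul_le_mul_of_nonneg_left (hsd y hy y' hy') hK1)) h1
      _ = (K1 * L + c * L) * ‖y - y'‖ := by ring
      _ ≤ K * ‖y - y'‖ := mul_le_mul_of_nonneg_right (by rw [hK]; linarith) (norm_nonneg _)
  · refine LipschitzOnWith.of_dist_le_mul fun y hy y' hy' => ?_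
    rw [dist_eq_norm, dist_eq_norm]
    change ‖Hf (F y) - Hf (F y')‖ ≤ K * ‖y - y'‖
    calc ‖Hf (F y) - Hf (F y')‖ ≤ K2 * (L * ‖y - y'‖) :=
          (hH _ _ (hF y hy) (hF y' hy')).trans
            (mul_le_mul_of_nonneg_left (hsd y hy y' hy') hK2)
      _ = (K2 * L) * ‖y - y'‖ := by ring
      _ ≤ K * ‖y - y'‖ := mul_le_mul_of_nonneg_right (by rw [hK]; linarith) (norm_nonneg _)
  · unfold Psi PsiF
    rw [hbd, hg.bdv]
    rfl
  · rw [hbd]
  · have c1 : Continuous (fun z : Sph (d + 1) × M => Xf g z.2) := by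
      have h1 : LipschitzWith ⟨(d + 1 : ℝ), hD⟩ (Xf g) :=
        LipschitzWith.of_dist_le_mul fun q q' => by
          rw [dist_eq_norm]
          exact hXl q q'
      exact h1.continuous.comp continuous_snd
    have c2 : Continuous (fun z : Sph (d + 1) × M => (z.1 : E (d + 1))) :=
      continuous_subtype_val.comp continuous_fst
    have c3 : Continuous (fun z : Sph (d + 1) × M => ip (Xf g z.2) z.1) := by
      unfold ip
      exact c1.inner c2
    have c4 : Continuous (fun z : Sph (d + 1) × M => (√(1 - ip (Xf g z.2) z.1 ^ 2))⁻¹) := by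
      refine Continuous.inv₀ (Real.continuous_sqrt.comp (continuous_const.sub (c3.pow 2))) ?_
      intro z
      have h1 : |ip (Xf g z.2) z.1| ≤ s := (ip_le _ _).trans (hXn _)
      have h2 : ip (Xf g z.2) z.1 ^ 2 ≤ s ^ 2 := by
        rw [sq_le_sq, abs_of_pos hs0]
        exact h1
      exact (Real.sqrt_pos.2 (by nlinarith)).ne'
    unfold Psi Uf
    exact (c4.smul (c1.sub (c3.smul c2))).add ((cont_g hg).smul c2)


end Pool.Agent.H780.NV
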