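import Pool.Agent.H780.NV.Ext

/-!
# The pointwise inequality in a chart (after `XDIFF` and `PTWF2` of the library)
-/

set_option autoImplicit false

open MeasureTheory Metric Set Filter Topology InnerProductGeometry Matrix

namespace Pool.Agent.H780.NV

open Pool.Agent.H241R3.FV Pool.Agent.N526.CP Pool.Agent.N979.CP
open Pool.Agent.N526.CP.XDIFF (gnorm_smul fderiv_bound cl_single cl_comp)
open Pool.Agent.N526.CP.PTWF2 (cl_apply mat_cl det_cl cl_mul cl_add cl_smulRight det_comp)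

/-- differentiability of the family and of the map `X` in a chart -/
theorem xdif {d : ℕ} (hd : 1 ≤ d) {M : Type} [MetricSpace M] (C : RChart (d + 1) M)
    {bd : Sph (d + 1) → M} {h : M → ℝ} {s : ℝ} {F : E (d + 1) → E (d + 1)}
    {g : Sph (d + 1) → M → ℝ} (hs0 : 0 < s) (hs1 : s < 1) (hg : FamB bd h s F g) :
    ∀ᵐ p ∂(volume : Measure (E (d + 1))), p ∈ C.U →
    ∃ α : Sph (d + 1) → E (d + 1), Measurable α ∧
      (∀ᵐ θ ∂(sg (d + 1)), HasFDerivAt (g θ ∘ C.map) (innerSL ℝ (α θ)) p) ∧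
      (∀ᵐ θ ∂(sg (d + 1)), ∀ v, |inner ℝ (α θ) v| ≤ gnorm (C.G p) v) ∧
      HasFDerivAt (Xf g ∘ C.map) (cl (Lm (Xf g (C.map p)) α)) p := by
  have hINV := Pool.Agent.N979.CP.Fin.inv
  have hDER := Pool.Agent.N979.CP.Fin.der
  have hRAP := RAP.t
  obtain ⟨hprob, -, -⟩ := Pool.Agent.N979.CP.Fin.sph d hd
  have hloc : ∀ p ∈ C.U, ∀ ε : ℝ, 0 < ε → ∃ r : ℝ, 0 < r ∧ ∀ θ, ∀ y ∈ ball p r, ∀ z ∈ ball p r,
      |g θ (C.map y) - g θ (C.map z)| ≤ gnorm (C.G p) (y - z) + ε * ‖y - z‖ := by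
    intro p hp ε hε
    obtain ⟨r, hr, -, h⟩ := Pool.Agent.H241R3.FV.TLoc.taskLoc (d + 1) M C p hp ε hε
    exact ⟨r, hr, fun θ y hy z hz => (hg.lip θ _ _).trans (h y hy z hz)⟩
  have hlip : ∀ p ∈ C.U, ∃ r : ℝ, 0 < r ∧ ∃ K : ℝ, ∀ θ, ∀ y ∈ ball p r, ∀ z ∈ ball p r,
      ‖g θ (C.map y) - g θ (C.map z)‖ ≤ K * ‖y - z‖ := by
    intro p hp
    obtain ⟨r, hr, h⟩ := hloc p hp 1 one_pos
    refine ⟨r, hr, √(∑ i, ∑ j, |C.G p i j|) + 1, fun θ y hy z hz => ?_⟩
    rw [Real.norm_eq_abs]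
    refine (h θ y hy z hz).trans ?_
    rw [add_mul]
    exact add_le_add_left (Pool.Agent.H241R3.FV.gnorm_le _ _) _
  have hcont : ∀ q, Continuous fun θ => g θ q := by
    obtain ⟨K, hK⟩ := hg.lipθ
    intro q
    refine LipschitzWith.continuous (K := Real.toNNReal K)
      (LipschitzWith.of_dist_le_mul fun θ θ' => ?_)
    rw [Real.dist_eq, Subtype.dist_eq, dist_eq_norm]
    refine (hK θ θ' q).trans ?_
    gcongr
    exact Real.le_coe_toNNReal K
  have hcont2 : ∀ q, Continuous fun θ : Sph (d + 1) => g θ q • (θ : E (d + 1)) := fun q =>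
    (hcont q).smul continuous_subtype_val
  obtain ⟨hae, hsm⟩ := hRAP (d + 1) ℝ C.U C.isOpen_U (fun θ p => g θ (C.map p)) hlip
    (fun p _ => hcont _) inferInstance
  filter_upwards [hae] with p hp hpU
  have hdiff := hp hpU
  obtain ⟨α, hαd⟩ : ∃ α : Sph (d + 1) → E (d + 1), α = fun θ =>
      (InnerProductSpace.toDual ℝ (E (d + 1))).symm (fderiv ℝ (fun y => g θ (C.map y)) p) :=
    ⟨_, rfl⟩
  have hαinner : ∀ θ v, inner ℝ (α θ) v = fderiv ℝ (fun y => g θ (C.map y)) p v := by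
    intro θ v
    rw [hαd]
    exact InnerProductSpace.toDual_symm_apply
  have hsm1 : StronglyMeasurable
      (fun θ : Sph (d + 1) => fderiv ℝ (fun y => g θ (C.map y)) p) := by
    have h1 := hsm.comp_measurable (measurable_prodMk_left (x := p) (β := Sph (d + 1)))
    have e : (fun θ : Sph (d + 1) => fderiv ℝ (fun y => g θ (C.map y)) p) =
        (fun z : E (d + 1) × Sph (d + 1) =>
          open Classical in if z.1 ∈ C.U then fderiv ℝ (fun y => g z.2 (C.map y)) z.1 else 0) ∘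
          Prod.mk p := by
      funext θ
      simp only [Function.comp_apply, if_pos hpU]
    rw [e]
    exact h1
  have hαm : StronglyMeasurable α := by
    rw [hαd]
    exact (InnerProductSpace.toDual ℝ (E (d + 1))).symm.continuous.comp_stronglyMeasurable hsm1
  have hHas : ∀ᵐ θ ∂(sg (d + 1)), HasFDerivAt (g θ ∘ C.map) (innerSL ℝ (α θ)) p := by
    filter_upwards [hdiff] with θ hθ
    have h1 : HasFDerivAt (g θ ∘ C.map) (fderiv ℝ (fun y => g θ (C.map y)) p) p := hθ.hasFDerivAt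
    have e : innerSL ℝ (α θ) = fderiv ℝ (fun y => g θ (C.map y)) p := by
      ext v
      exact hαinner θ v
    rw [e]
    exact h1
  have hbd : ∀ᵐ θ ∂(sg (d + 1)), ∀ v, |inner ℝ (α θ) v| ≤ gnorm (C.G p) v := by
    filter_upwards [hHas] with θ hθ v
    refine fderiv_bound hθ (fun ε hε => ?_) v
    obtain ⟨r, hr, h⟩ := hloc p hpU ε hε
    exact ⟨r, hr, fun y hy => h θ y hy p (mem_ball_self hr)⟩
  refine ⟨α, hαm.measurable, hHas, hbd, ?_⟩
  -- the derivative of the integral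
  obtain ⟨r, hr, K, hK⟩ := hlip p hpU
  have hI := hasFDerivAt_integral_of_dominated_loc_of_lip' (𝕜 := ℝ) (μ := sg (d + 1))
    (s := ball p r) (x₀ := p) (F := fun y (θ : Sph (d + 1)) => g θ (C.map y) • (θ : E (d + 1)))
    (F' := fun θ : Sph (d + 1) => (innerSL ℝ (α θ)).smulRight (θ : E (d + 1)))
    (bound := fun _ => K) (ball_mem_nhds p hr) ?_ ?_ ?_ ?_ ?_ ?_
  · obtain ⟨hInt, hD⟩ := hI
    have hM : (∫ θ : Sph (d + 1), (innerSL ℝ (α θ)).smulRight (θ : E (d + 1)) ∂(sg (d + 1))) =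
        cl (Mx (sg (d + 1)) (fun θ : Sph (d + 1) => (θ : E (d + 1))) α) := by
      apply ContinuousLinearMap.coe_injective
      refine (EuclideanSpace.basisFun (Fin (d + 1)) ℝ).toBasis.ext fun j => ?_
      rw [OrthonormalBasis.coe_toBasis, EuclideanSpace.basisFun_apply]
      ext k
      have h1 : (∫ θ : Sph (d + 1), (innerSL ℝ (α θ)).smulRight (θ : E (d + 1)) ∂(sg (d + 1)))
          (EuclideanSpace.single j 1) = ∫ θ : Sph (d + 1), ((innerSL ℝ (α θ)).smulRight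
            (θ : E (d + 1))) (EuclideanSpace.single j 1) ∂(sg (d + 1)) :=
        ContinuousLinearMap.integral_apply hInt _
      have h2 := (EuclideanSpace.proj k : E (d + 1) →L[ℝ] ℝ).integral_comp_comm
        (hInt.apply_continuousLinearMap (EuclideanSpace.single j 1))
      have h3 : ∀ θ : Sph (d + 1), (EuclideanSpace.proj k : E (d + 1) →L[ℝ] ℝ)
          (((innerSL ℝ (α θ)).smulRight (θ : E (d + 1))) (EuclideanSpace.single j 1)) =
            (θ : E (d + 1)) k * α θ j := by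
        intro θ
        have e1 : inner ℝ (α θ) (EuclideanSpace.single j (1 : ℝ)) = α θ j := by
          rw [EuclideanSpace.inner_single_right]
          simp
        change (inner ℝ (α θ) (EuclideanSpace.single j (1 : ℝ)) • (θ : E (d + 1))) k = _
        rw [e1, PiLp.smul_apply, smul_eq_mul, mul_comm]
      simp only [h3] at h2
      change ((∫ θ : Sph (d + 1), (innerSL ℝ (α θ)).smulRight (θ : E (d + 1)) ∂(sg (d + 1)))
          (EuclideanSpace.single j 1)) k = (cl _ (EuclideanSpace.single j 1)) k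
      rw [h1, cl_single]
      exact h2.symm
    rw [hM] at hD
    obtain ⟨Y, hY⟩ : ∃ Y : E (d + 1), Y = ∫ θ : Sph (d + 1), g θ (C.map p) • (θ : E (d + 1))
      ∂(sg (d + 1)) := ⟨_, rfl⟩
    have hYr : ‖Y‖ ≤ zf d s := by
      rw [hY]
      exact hg.range (C.map p)
    obtain ⟨h1, h2⟩ := (hINV d hd).2.1 s hs0 hs1 Y hYr
    have h3 := (hDER d hd (Ri Y) (h1.trans_lt hs1)).2.2
    rw [h2] at h3
    have hXY : Xf g (C.map p) = Ri Y := by
      rw [hY]
      rfl
    rw [hXY]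
    unfold Lm
    rw [← cl_comp]
    have h4 : HasFDerivAt (Ri : E (d + 1) → E (d + 1)) (cl (DZ (Ri Y))⁻¹)
        ((fun y => ∫ θ : Sph (d + 1), g θ (C.map y) • (θ : E (d + 1)) ∂(sg (d + 1))) p) := by
      rw [hY] at h3 ⊢
      exact h3
    exact h4.comp p hD
  · intro x _
    exact (hcont2 _).aestronglyMeasurable
  · exact (hcont2 _).integrable_of_hasCompactSupport (HasCompactSupport.of_compactSpace _)
  · have h1 : StronglyMeasurable (fun θ : Sph (d + 1) => innerSL ℝ (α θ)) :=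
      (innerSL ℝ).continuous.comp_stronglyMeasurable hαm
    have h2 : StronglyMeasurable (fun θ : Sph (d + 1) => (θ : E (d + 1))) :=
      continuous_subtype_val.stronglyMeasurable
    exact ((ContinuousLinearMap.smulRightL ℝ (E (d + 1))
      (E (d + 1))).continuous₂.comp_stronglyMeasurable (h1.prodMk h2)).aestronglyMeasurable
  · refine Eventually.of_forall fun θ x hx => ?_
    rw [← sub_smul, norm_smul, norm_sph, mul_one]
    exact hK θ x hx p (mem_ball_self hr)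
  · exact integrable_const K
  · filter_upwards [hHas] with θ hθ
    exact hθ.smul_const (θ : E (d + 1))

/-- the pointwise inequality in a chart -/
theorem ptw {d : ℕ} (hd : 1 ≤ d) {M : Type} [MetricSpace M] (C : RChart (d + 1) M)
    {bd : Sph (d + 1) → M} {h : M → ℝ} {s : ℝ} {F : E (d + 1) → E (d + 1)}
    {g : Sph (d + 1) → M → ℝ} (hs : Good2 d s) (hF : FamB bd h s F g) :
    ∀ᵐ p ∂(volume : Measure (E (d + 1))), p ∈ C.U →
    (d + 1) * ∫ θ, (fderiv ℝ (Psi g θ ∘ C.map) p).det ∂(sg (d + 1)) -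
      d * (fderiv ℝ (Hf ∘ Xf g ∘ C.map) p).det ≤ √(C.G p).det := by
  have hCOM := Pool.Agent.N979.CP.Fin.comb
  have hINV := Pool.Agent.N979.CP.Fin.inv
  have hUDER := UDER.t
  filter_upwards [xdif hd C hs.1 hs.2.1 hF] with p hp hpU
  obtain ⟨α, hαm, hα1, hα2, hX⟩ := hp hpU
  obtain ⟨X, hXdef⟩ : ∃ X, X = Xf g (C.map p) := ⟨_, rfl⟩
  rw [← hXdef] at hX
  have hXs : ‖X‖ ≤ s := by
    rw [hXdef]
    exact ((hINV d hd).2.1 s hs.1 hs.2.1 _ (hF.range (C.map p))).1
  have hX1 : ‖X‖ < 1 := lt_of_le_of_lt hXs hs.2.1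
  have com := hCOM d hd s hs X hXs α hαm (C.G p) (C.pos_G p hpU) hα2
  have hint : ∫ θ, (fderiv ℝ (Psi g θ ∘ C.map) p).det ∂(sg (d + 1)) =
      ∫ θ, (Vm X θ * Lm X α +
        vecMulVec (fun i => (θ : E (d + 1)) i) (fun i => α θ i)).det ∂(sg (d + 1)) := by
    apply integral_congr_ae
    filter_upwards [hα1] with θ hθ
    have hU := (hUDER d hd X hX1).1 θ
    rw [hXdef] at hU
    have h1 : HasFDerivAt (Uf θ ∘ (Xf g ∘ C.map)) ((cl (Vm (Xf g (C.map p)) θ)).comp
        (cl (Lm X α))) p := HasFDerivAt.comp p hU hX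
    have h2 : HasFDerivAt (fun y => (g θ ∘ C.map) y • (θ : E (d + 1)))
        ((innerSL ℝ (α θ)).smulRight (θ : E (d + 1))) p := hθ.smul_const _
    have h3 : HasFDerivAt (Psi g θ ∘ C.map) ((cl (Vm (Xf g (C.map p)) θ)).comp
        (cl (Lm X α)) + (innerSL ℝ (α θ)).smulRight (θ : E (d + 1))) p := h1.add h2
    rw [h3.fderiv, ← hXdef, cl_mul, cl_smulRight, cl_add, det_cl]
  obtain ⟨T, hT, hTdet⟩ := (hUDER d hd X hX1).2
  have h4 : HasFDerivAt (Hf ∘ Xf g ∘ C.map) (T.comp (cl (Lm X α))) p := by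
    rw [hXdef] at hT
    exact HasFDerivAt.comp p hT hX
  rw [hint, h4.fderiv, det_comp, det_cl, hTdet, mul_comm (√(1 - ‖X‖ ^ 2))⁻¹]
  exact com


end Pool.Agent.H780.NV
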