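import Pool.Agent.H780.NV.Sto
import Pool.Agent.H780.NV.Ptw
import Pool.Agent.H780.NV.Lip

/-!
# The volume of the part near the boundary: assembly (after `FUB` and `MAINF2` of the library)
-/

set_option autoImplicit false

open MeasureTheory Metric Set Filter Topology InnerProductGeometry Matrix

namespace Pool.Agent.H780.NV

open Pool.Agent.H241R3.FV Pool.Agent.N526.CP Pool.Agent.N979.CP

/-- Fubini -/
theorem fub {d : ℕ} {M : Type} [MetricSpace M] {bd : Sph (d + 1) → M} {N : Set M}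
    (S : NFill (d + 1) M bd N) (hvol : S.vol < ⊤) (K : NNReal)
    (Φ : Sph (d + 1) → M → E (d + 1)) (hΦ : ∀ θ, LipschitzWith K (Φ θ))
    (hc : Continuous (fun z : Sph (d + 1) × M => Φ z.1 z.2))
    [IsProbabilityMeasure (sg (d + 1))] :
    (∀ i, IntegrableOn (fun p => ∫ θ, (fderiv ℝ (Φ θ ∘ (S.chart i).map) p).det ∂(sg (d + 1)))
      (S.chart i).D) ∧
    ∫ θ, jn S (Φ θ) ∂(sg (d + 1)) =
      ∑ i, ∫ p in (S.chart i).D, ∫ θ, (fderiv ℝ (Φ θ ∘ (S.chart i).map) p).det ∂(sg (d + 1)) := by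
  have hvi : ∀ i, ∫⁻ p in (S.chart i).D, ENNReal.ofReal √((S.chart i).G p).det < ⊤ := by
    intro i
    refine lt_of_le_of_lt ?_ hvol
    exact Finset.single_le_sum
      (f := fun i => ∫⁻ p in (S.chart i).D, ENNReal.ofReal √((S.chart i).G p).det)
      (fun _ _ => bot_le) (Finset.mem_univ i)
  have hI := fun i => FUB.int_prod RAP.t (S.chart i) (hvi i) K Φ hΦ hc
  refine ⟨fun i => (hI i).integral_prod_left, ?_⟩
  unfold jn
  rw [integral_finsetSum _ (fun i _ => (hI i).integral_prod_right)]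
  refine Finset.sum_congr rfl fun i _ => ?_
  exact (integral_integral_swap (hI i)).symm

/-- The region theorem for the part near the boundary. -/
theorem region {d : ℕ} (hd : 1 ≤ d) {s : ℝ} (hGood : Good2 d s) {M : Type} [MetricSpace M]
    {bd : Sph (d + 1) → M} {N : Set M} (S : NFill (d + 1) M bd N) {h : M → ℝ} (hh : Hgt N h)
    (F : E (d + 1) → E (d + 1)) (L : NNReal) (hFL : LipschitzOnWith L F (closedBall 0 1))
    (hFs : ∀ y ∈ closedBall (0 : E (d + 1)) 1, ‖F y‖ ≤ s)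
    (hbd : ∀ x y : Sph (d + 1), hdist (F x) (F y) ≤ dist (bd x) (bd y))
    (hFh : ∀ x : Sph (d + 1), Real.arcsin ‖F x‖ ≤ h (bd x)) :
    ENNReal.ofReal (∫ y in ball (0 : E (d + 1)) 1, (fderiv ℝ F y).det * (√(1 - ‖F y‖ ^ 2))⁻¹) ≤
      S.vol := by
  by_cases hvol : S.vol = ⊤
  · rw [hvol]
    exact le_top
  have hvol' : S.vol < ⊤ := lt_top_iff_ne_top.2 hvol
  have hs0 : 0 < s := hGood.1
  have hs1 : s < 1 := hGood.2.1
  have hFx : ∀ x : Sph (d + 1), ‖F x‖ ≤ s := fun x =>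
    hFs x (sphere_subset_closedBall x.2)
  obtain ⟨g, hg⟩ := fam_exists hd bd hs0 hs1 F hFx hbd h hh.nonneg hh.lip hFh
  obtain ⟨K, hK1, hK2, hK3, hK4, hK5, hK6, hK7⟩ := lip hd hh.nonneg hs0 hs1 hg hFL hFs
  obtain ⟨hprob, -, -⟩ := Pool.Agent.N979.CP.Fin.sph d hd
  have := hprob
  -- Stokes
  have hst1 : ∀ θ, jn S (Psi g θ) =
      ∫ y in ball (0 : E (d + 1)) 1, (fderiv ℝ (PsiF F θ) y).det := fun θ =>
    Sto.t (by omega) S hvol' hh (hK1 θ) (hK3 θ) (fun x => hK5 θ x)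
  have hst2 : jn S (Hf ∘ Xf g) =
      ∫ y in ball (0 : E (d + 1)) 1, (fderiv ℝ (Hf ∘ F) y).det :=
    Sto.t (by omega) S hvol' hh hK2 hK4 (fun x => hK6 x)
  -- Fubini
  obtain ⟨hF2, hF3⟩ := fub S hvol' K (Psi g) (fun θ => (hK1 θ).lip) hK7
  obtain ⟨hG2, -⟩ := fub S hvol' K (fun _ => Hf ∘ Xf g) (fun _ => hK2.lip)
    (hK2.lip.continuous.comp continuous_snd)
  have hG4 : ∀ i, IntegrableOn (fun p => (fderiv ℝ (Hf ∘ Xf g ∘ (S.chart i).map) p).det)
      (S.chart i).D := by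
    intro i
    have h := hG2 i
    simp only [integral_const, probReal_univ, one_smul] at h
    exact h
  have hcap := CAPVF.t Pool.Agent.N979.CP.Fin.sph Pool.Agent.N979.CP.Fin.gram UDER.t
    Pool.Agent.N979.CP.Fin.detv d hd s hs0 hs1 F L hFL hFs
  have h1 : ∫ y in ball (0 : E (d + 1)) 1, (fderiv ℝ F y).det * (√(1 - ‖F y‖ ^ 2))⁻¹ = ∑ i, ∫ p in (S.chart i).D,
      ((d + 1) * ∫ θ, (fderiv ℝ (Psi g θ ∘ (S.chart i).map) p).det ∂(sg (d + 1)) -
        d * (fderiv ℝ (Hf ∘ Xf g ∘ (S.chart i).map) p).det) := by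
    rw [← hcap, ← hst2]
    simp only [← hst1]
    rw [hF3]
    unfold jn
    rw [Finset.mul_sum, Finset.mul_sum, ← Finset.sum_sub_distrib]
    refine Finset.sum_congr rfl fun i _ => ?_
    rw [integral_sub ((hF2 i).const_mul _) ((hG4 i).const_mul _), integral_const_mul,
      integral_const_mul]
    rfl
  rw [h1]
  refine (MAINF.ofReal_sum_le _ _).trans ?_
  unfold NFill.vol
  refine Finset.sum_le_sum fun i _ => ?_
  refine (MAINF.ofReal_integral_le (((hF2 i).const_mul _).sub ((hG4 i).const_mul _))).trans ?_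
  refine lintegral_mono_ae ?_
  have h2 := ae_restrict_of_ae (s := (S.chart i).D) (ptw hd (S.chart i) hGood hg)
  filter_upwards [h2, ae_restrict_mem (S.chart i).meas_D] with p hp hpD
  exact ENNReal.ofReal_le_ofReal (hp ((S.chart i).D_sub hpD))


end Pool.Agent.H780.NV
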