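import Pool.Agent.H780.NV.Cor

/-!
# Restriction of a compact filling to the part near the boundary
-/

set_option autoImplicit false

open MeasureTheory Metric Set Filter Topology InnerProductGeometry Matrix

namespace Pool.Agent.H780.NV

open Pool.Agent.H241R3.FV Pool.Agent.N526.CP Pool.Agent.N979.CP

/-- restriction of a chart -/
def rchart {n : ℕ} {M : Type} [MetricSpace M] (C : RChart n M) (V : Set (E n)) (hV : IsOpen V)
    (hVU : V ⊆ C.U) (D : Set (E n)) (hD : MeasurableSet D) (hDV : D ⊆ V) : RChart n M where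
  U := V
  isOpen_U := hV
  D := D
  meas_D := hD
  D_sub := hDV
  map := C.map
  G := C.G
  cont_G := C.cont_G.mono hVU
  pos_G := fun p hp => C.pos_G p (hVU hp)
  dist_le := fun x y h => C.dist_le x y (h.trans hVU)

section

variable {n : ℕ} {M : Type} [MetricSpace M] {bd : Sph n → M} {N₀ : Set M}

theorem isOpen_pre (S : NFill n M bd N₀) {N : Set M} (hN : IsOpen N) (i : S.ι) :
    IsOpen {p | p ∈ (S.chart i).U ∧ (S.chart i).map p ∈ N} := by
  rw [isOpen_iff_mem_nhds]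
  rintro p ⟨hp, hpN⟩
  filter_upwards [(S.chart i).isOpen_U.mem_nhds hp,
    (LOC.chart_cont (S.chart i) hp) (hN.mem_nhds hpN)] with y hy1 hy2
  exact ⟨hy1, hy2⟩

theorem meas_pre (S : NFill n M bd N₀) {N : Set M} (hN : IsOpen N) (i : S.ι) :
    MeasurableSet {p | p ∈ (S.chart i).D ∧ (S.chart i).map p ∈ N} := by
  have h : {p | p ∈ (S.chart i).D ∧ (S.chart i).map p ∈ N} =
      (S.chart i).D ∩ {p | p ∈ (S.chart i).U ∧ (S.chart i).map p ∈ N} := by
    ext p
    constructor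
    · rintro ⟨h1, h2⟩
      exact ⟨h1, (S.chart i).D_sub h1, h2⟩
    · rintro ⟨h1, -, h2⟩
      exact ⟨h1, h2⟩
  rw [h]
  exact (S.chart i).meas_D.inter (isOpen_pre S hN i).measurableSet

theorem partVol_add (S : NFill n M bd N₀) {N : Set M} (hN : IsOpen N) :
    S.part N + S.part Nᶜ = S.vol := by
  unfold NFill.part NFill.vol
  rw [← Finset.sum_add_distrib]
  refine Finset.sum_congr rfl fun i _ => ?_
  have h1 : {p | p ∈ (S.chart i).D ∧ (S.chart i).map p ∈ Nᶜ} =
      (S.chart i).D \ {p | p ∈ (S.chart i).D ∧ (S.chart i).map p ∈ N} := by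
    ext p
    constructor
    · rintro ⟨h1, h2⟩
      exact ⟨h1, fun h => h2 h.2⟩
    · rintro ⟨h1, h2⟩
      exact ⟨h1, fun h => h2 ⟨h1, h⟩⟩
  have h2 : {p | p ∈ (S.chart i).D ∧ (S.chart i).map p ∈ N} =
      (S.chart i).D ∩ {p | p ∈ (S.chart i).D ∧ (S.chart i).map p ∈ N} := by
    ext p
    constructor
    · rintro h
      exact ⟨h.1, h⟩
    · rintro h
      exact h.2
  rw [h1]
  nth_rewrite 1 [h2]
  exact lintegral_inter_add_sdiff _ _ (meas_pre S hN i)

/-- the charts of the restriction -/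
def rch (S : NFill n M bd N₀) {N : Set M} (hN : IsOpen N) {j : S.ι} {r' : ℝ}
    (hj : {x | r' < ‖x‖ ∧ ‖x‖ < 1} ⊆ (S.chart j).U) : Option S.ι → RChart n M
  | some i => rchart (S.chart i) {p | p ∈ (S.chart i).U ∧ (S.chart i).map p ∈ N}
      (isOpen_pre S hN i) (fun _ hp => hp.1) {p | p ∈ (S.chart i).D ∧ (S.chart i).map p ∈ N}
      (meas_pre S hN i) (fun _ hp => ⟨(S.chart i).D_sub hp.1, hp.2⟩)
  | none => rchart (S.chart j) {x | r' < ‖x‖ ∧ ‖x‖ < 1}
      ((isOpen_lt continuous_const continuous_norm).inter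
        (isOpen_lt continuous_norm continuous_const)) hj ∅ MeasurableSet.empty (empty_subset _)

/-- the index of the underlying chart -/
def ix (S : NFill n M bd N₀) (j : S.ι) : Option S.ι → S.ι
  | some i => i
  | none => j

theorem rch_map (S : NFill n M bd N₀) {N : Set M} (hN : IsOpen N) {j : S.ι} {r' : ℝ}
    (hj : {x | r' < ‖x‖ ∧ ‖x‖ < 1} ⊆ (S.chart j).U) (o : Option S.ι) :
    (rch S hN hj o).map = (S.chart (ix S j o)).map ∧ (rch S hN hj o).G = (S.chart (ix S j o)).G ∧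
    (rch S hN hj o).U ⊆ (S.chart (ix S j o)).U := by
  cases o with
  | some i => exact ⟨rfl, rfl, fun _ hp => hp.1⟩
  | none => exact ⟨rfl, rfl, hj⟩

/-- The restriction of a filling to an open neighbourhood of the boundary. -/
noncomputable def restr (S : NFill n M bd N₀) {N : Set M} (hN : IsOpen N) (hNN : N ⊆ N₀) (hb : ∀ x, bd x ∈ N)
    {j : S.ι} {r' : ℝ} (hr : S.r ≤ r') (hr1 : r' < 1)
    (hj : {x | r' < ‖x‖ ∧ ‖x‖ < 1} ⊆ (S.chart j).U)
    (hjm : ∀ x ∈ (S.chart j).U, (S.chart j).map x = S.col x)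
    (hc : ∀ x : E n, r' < ‖x‖ → ‖x‖ ≤ 1 → S.col x ∈ N) : NFill n M bd N where
  ι := Option S.ι
  fin := inferInstance
  chart := rch S hN hj
  inj := fun o => by
    obtain ⟨h1, -, h3⟩ := rch_map S hN hj o
    rw [h1]
    exact (S.inj _).mono h3
  open_map := fun o V hV hVo => by
    obtain ⟨h1, -, h3⟩ := rch_map S hN hj o
    rw [h1]
    exact S.open_map _ V (hV.trans h3) hVo
  off_bd := fun o p hp x => by
    obtain ⟨h1, -, h3⟩ := rch_map S hN hj o
    rw [h1]
    exact S.off_bd _ p (h3 hp) x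
  sub := fun o p hp => by
    cases o with
    | some i => exact hp.2
    | none =>
      have h1 : (rch S hN hj none).map p = S.col p := hjm p (hj hp)
      rw [h1]
      exact hc p hp.1 hp.2.le
  bd_mem := hb
  cover := fun q hq => by
    rcases S.cover q (hNN hq) with h | ⟨i, p, hp, rfl⟩
    · exact Or.inl h
    · exact Or.inr ⟨some i, p, ⟨hp, hq⟩, rfl⟩
  disj := fun o o' p hp p' hp' h => by
    cases o with
    | none => exact absurd hp (notMem_empty p)
    | some i =>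
      cases o' with
      | none => exact absurd hp' (notMem_empty p')
      | some i' => exact congrArg some (S.disj i i' p hp.1 p' hp'.1 h)
  trans := fun o o' p hp p' hp' h => by
    obtain ⟨h1, h2, h3⟩ := rch_map S hN hj o
    obtain ⟨h1', h2', h3'⟩ := rch_map S hN hj o'
    rw [h1, h1'] at h
    obtain ⟨τ, T, ht, he, hd, hpos, hg⟩ := S.trans _ _ p (h3 hp) p' (h3' hp') h
    refine ⟨τ, T, ht, ?_, hd, hpos, ?_⟩
    · have h5 : ∀ᶠ y in 𝓝 p, τ y ∈ (rch S hN hj o').U := by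
        refine hd.continuousAt.eventually ?_
        rw [ht]
        exact (rch S hN hj o').isOpen_U.mem_nhds hp'
      filter_upwards [he, h5] with y hy hy'
      rw [h1, h1']
      exact ⟨hy', hy.2⟩
    · rw [h2, h2']
      exact hg
  r := r'
  r_pos := lt_of_lt_of_le S.r_pos hr
  r_lt := hr1
  col := S.col
  col_bd := S.col_bd
  col_chart := ⟨none, rfl, fun x hx => hjm x (hj hx)⟩
  col_open := by
    rw [Metric.isOpen_iff]
    rintro _ ⟨x, ⟨hx1, hx2⟩, rfl⟩
    obtain ⟨ε, hε, hb⟩ := Metric.isOpen_iff.1 S.col_open (S.col x) ⟨x, ⟨hr.trans_lt hx1, hx2⟩, rfl⟩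
    obtain ⟨K, hK⟩ := S.col_lip
    have hK1 : 0 < max K 0 + 1 := by positivity
    have hε2 : 0 < (‖x‖ - r') / (max K 0 + 1) := div_pos (by linarith) hK1
    refine ⟨min ε ((‖x‖ - r') / (max K 0 + 1)), lt_min hε hε2, fun q hq => ?_⟩
    have hq1 : q ∈ ball (S.col x) ε := ball_subset_ball (min_le_left _ _) hq
    obtain ⟨y, ⟨hy1, hy2⟩, rfl⟩ := hb hq1
    refine ⟨y, ⟨?_, hy2⟩, rfl⟩
    have h1 := (hK x y (hr.trans_lt hx1) hx2 hy1 hy2).2
    have hq2 : dist (S.col y) (S.col x) < (‖x‖ - r') / (max K 0 + 1) :=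
      (mem_ball.1 hq).trans_le (min_le_right _ _)
    rw [lt_div_iff₀ hK1] at hq2
    have h2 : K * dist (S.col x) (S.col y) ≤ dist (S.col y) (S.col x) * (max K 0 + 1) := by
      rw [dist_comm, mul_comm]
      refine mul_le_mul_of_nonneg_left ?_ dist_nonneg
      linarith [le_max_left K 0]
    have h3 := norm_sub_norm_le x y
    linarith
  col_lip := by
    obtain ⟨K, hK⟩ := S.col_lip
    exact ⟨K, fun x y hx hx' hy hy' => hK x y (hr.trans_lt hx) hx' (hr.trans_lt hy) hy'⟩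

theorem restr_vol (S : NFill n M bd N₀) {N : Set M} (hN : IsOpen N) (hNN : N ⊆ N₀) (hb : ∀ x, bd x ∈ N)
    {j : S.ι} {r' : ℝ} (hr : S.r ≤ r') (hr1 : r' < 1)
    (hj : {x | r' < ‖x‖ ∧ ‖x‖ < 1} ⊆ (S.chart j).U)
    (hjm : ∀ x ∈ (S.chart j).U, (S.chart j).map x = S.col x)
    (hc : ∀ x : E n, r' < ‖x‖ → ‖x‖ ≤ 1 → S.col x ∈ N) :
    (restr S hN hNN hb hr hr1 hj hjm hc).vol = S.part N := by
  have h1 : (restr S hN hNN hb hr hr1 hj hjm hc).vol =
      ∑ o : Option S.ι, ∫⁻ p in (rch S hN hj o).D, ENNReal.ofReal √((rch S hN hj o).G p).det := rfl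
  rw [h1, Fintype.sum_option]
  have h2 : ∫⁻ p in (rch S hN hj none).D, ENNReal.ofReal √((rch S hN hj none).G p).det = 0 := by
    have : (rch S hN hj none).D = ∅ := rfl
    rw [this, Measure.restrict_empty, lintegral_zero_measure]
  rw [h2, zero_add]
  rfl

theorem isOpen_near {bd : Sph n → M} {r : Sph n → ℝ} : IsOpen (near bd r) := by
  have h : near bd r = ⋃ x, ball (bd x) (r x) := by
    ext q
    simp [near]
  rw [h]
  exact isOpen_iUnion fun x => isOpen_ball

/-- every neighbourhood of the boundary contains a collar -/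
theorem exists_collar (S : NFill n M bd N₀) {N : Set M} (hN : IsOpen N) (hb : ∀ x, bd x ∈ N) :
    ∃ r' : ℝ, S.r ≤ r' ∧ r' < 1 ∧ ∀ x : E n, r' < ‖x‖ → ‖x‖ ≤ 1 → S.col x ∈ N := by
  have hc : IsCompact (range bd) := isCompact_range (bd_cont S)
  obtain ⟨δ, hδ, hδN⟩ := hc.exists_thickening_subset_open hN (by
    rintro _ ⟨x, rfl⟩
    exact hb x)
  obtain ⟨K, hK⟩ := S.col_lip
  have hr1 := S.r_lt
  have hr0 := S.r_pos
  have hK1 : 0 < max K 0 + 1 := by positivity
  refine ⟨max S.r (1 - δ / (max K 0 + 1)), le_max_left _ _, max_lt hr1 ?_, fun x hx hx1 => ?_⟩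
  · have : 0 < δ / (max K 0 + 1) := by positivity
    linarith
  apply hδN
  have hx0 : 0 < ‖x‖ := by
    have := (le_max_left S.r _).trans_lt hx
    linarith
  have hn : ‖(‖x‖⁻¹ • x)‖ = 1 := by
    rw [norm_smul, norm_inv, norm_norm, inv_mul_cancel₀ hx0.ne']
  rw [mem_thickening_iff]
  refine ⟨bd ⟨‖x‖⁻¹ • x, by simpa using hn⟩, mem_range_self _, ?_⟩
  rw [← S.col_bd]
  change dist (S.col x) (S.col (‖x‖⁻¹ • x)) < δ
  have h1 := (hK x (‖x‖⁻¹ • x) ((le_max_left _ _).trans_lt hx) hx1 (by rw [hn]; exact hr1)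
    hn.le).1
  have h2 : ‖x - ‖x‖⁻¹ • x‖ = 1 - ‖x‖ := by
    have e : x - ‖x‖⁻¹ • x = (1 - ‖x‖⁻¹) • x := by module
    rw [e, norm_smul, Real.norm_eq_abs]
    have h3 : 1 ≤ ‖x‖⁻¹ := (one_le_inv₀ hx0).2 hx1
    rw [abs_of_nonpos (by linarith)]
    field_simp
    ring
  rw [h2] at h1
  have h4 : 1 - δ / (max K 0 + 1) < ‖x‖ := (le_max_right _ _).trans_lt hx
  have h5 : 1 - ‖x‖ < δ / (max K 0 + 1) := by linarith
  rw [lt_div_iff₀ hK1] at h5
  have h6 : K * (1 - ‖x‖) ≤ (1 - ‖x‖) * (max K 0 + 1) := by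
    rw [mul_comm]
    refine mul_le_mul_of_nonneg_left ?_ (by linarith)
    linarith [le_max_left K 0]
  linarith

/-- the restriction to a neighbourhood of the boundary exists -/
theorem exists_restr (S : NFill n M bd N₀) {N : Set M} (hN : IsOpen N) (hNN : N ⊆ N₀) (hb : ∀ x, bd x ∈ N) :
    ∃ S' : NFill n M bd N, S'.vol = S.part N := by
  obtain ⟨r', hr, hr1, hc⟩ := exists_collar S hN hb
  obtain ⟨j, hjU, hjm⟩ := S.col_chart
  have hj : {x | r' < ‖x‖ ∧ ‖x‖ < 1} ⊆ (S.chart j).U := by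
    rw [hjU]
    exact fun x hx => ⟨hr.trans_lt hx.1, hx.2⟩
  exact ⟨restr S hN hNN hb hr hr1 hj hjm hc, restr_vol S hN hNN hb hr hr1 hj hjm hc⟩

end

end Pool.Agent.H780.NV
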