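import Pool.Agent.H780.NV.Cor
import Pool.Agent.H780.NV.Res
import Pool.Graph.R_pool_sql_team_seeded_63374d34.N979.P1.FinB

/-!
# The area of the part of a surface near its boundary circle (after the parts `ZDIF`, `PTWP`, `LEV`,
`LIPP`, `MAINP`, `FINP` of the project P1 of the library)
-/

set_option autoImplicit false

open MeasureTheory Metric Set Filter Topology InnerProductGeometry Matrix

namespace Pool.Agent.H780.NV.P1

open Pool.Agent.H241R3.FV Pool.Agent.N526.CP Pool.Agent.N979.P1 Pool.Agent.N979.CP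
  Pool.Agent.H780.NV
open Pool.Agent.N526.CP.XDIF (fderiv_bound)
open Pool.Agent.N134.P1_PTWP (instFin AxL pair_eq AxL_apply Ax_fun Ax_smul dt_smul det_pair
  alpha_bound apply_integral)
open Pool.Agent.N849.P1LIPP (nrm2 vec_sub norm_Jr Ax_sub cont_vec cont_Jr)
open Pool.Agent.N526.CP.LIP (asin_lip)
open Pool.Agent.N225.P1MAINP (smul_vec)

/-- differentiability of `Z` in a chart -/
theorem zdif {M : Type} [MetricSpace M] (C : RChart 2 M) {bd : Sph 2 → M} {h : M → ℝ} {s : ℝ}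
    {F : E 2 → E 2} {g : Sph 2 → M → ℝ} (hg : FamB (d := 1) bd h s F g) :
    ∀ᵐ p ∂(volume : Measure (E 2)), p ∈ C.U →
    ∃ α : Sph 2 → E 2, Measurable α ∧
      (∀ᵐ θ ∂(sg 2), HasFDerivAt (g θ ∘ C.map) (innerSL ℝ (α θ)) p) ∧
      (∀ᵐ θ ∂(sg 2), ∀ v, |inner ℝ (α θ) v| ≤ gnorm (C.G p) v) ∧
      ∃ L : E 2 →L[ℝ] E 2, (∀ v, L v = ∫ θ : Sph 2, inner ℝ (α θ) v • (θ : E 2) ∂(sg 2)) ∧
        HasFDerivAt (Zg g ∘ C.map) L p := by
  have hRAP := RAP.t
  have hprob : IsProbabilityMeasure (sg 2) := (SPH.t 1 le_rfl).1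
  have hloc : ∀ p ∈ C.U, ∀ ε : ℝ, 0 < ε → ∃ r : ℝ, 0 < r ∧ ∀ θ, ∀ y ∈ ball p r, ∀ z ∈ ball p r,
      |g θ (C.map y) - g θ (C.map z)| ≤ gnorm (C.G p) (y - z) + ε * ‖y - z‖ := by
    intro p hp ε hε
    obtain ⟨r, hr, -, h⟩ := Pool.Agent.H241R3.FV.TLoc.taskLoc 2 M C p hp ε hε
    exact ⟨r, hr, fun θ y hy z hz => (hg.lip θ _ _).trans (h y hy z hz)⟩
  have hlip : ∀ p ∈ C.U, ∃ r : ℝ, 0 < r ∧ ∃ K : ℝ, ∀ θ, ∀ y ∈ ball p r, ∀ z ∈ ball p r,
      ‖g θ (C.map y) - g θ (C.map z)‖ ≤ K * ‖y - z‖ := by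
    intro p hp
    obtain ⟨r, hr, h⟩ := hloc p hp 1 one_pos
    refine ⟨r, hr, √(∑ i, ∑ j, |C.G p i j|) + 1, fun θ y hy z hz => ?_⟩
    rw [Real.norm_eq_abs]
    refine (h θ y hy z hz).trans ?_
    rw [add_mul]
    exact add_le_add_left (Pool.Agent.H241R3.FV.gnorm_le _ _) _
  have hcont : ∀ q, Continuous fun θ => g θ q := by
    obtain ⟨K, hK⟩ := hg.lipθ
    intro q
    refine LipschitzWith.continuous (K := Real.toNNReal K)
      (LipschitzWith.of_dist_le_mul fun θ θ' => ?_)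
    rw [Real.dist_eq, Subtype.dist_eq, dist_eq_norm]
    refine (hK θ θ' q).trans ?_
    gcongr
    exact Real.le_coe_toNNReal K
  have hcont2 : ∀ q, Continuous fun θ : Sph 2 => g θ q • (θ : E 2) := fun q =>
    (hcont q).smul continuous_subtype_val
  obtain ⟨hae, hsm⟩ := hRAP 2 ℝ C.U C.isOpen_U (fun θ p => g θ (C.map p)) hlip
    (fun p _ => hcont _) inferInstance
  filter_upwards [hae] with p hp hpU
  have hdiff := hp hpU
  obtain ⟨α, hαd⟩ : ∃ α : Sph 2 → E 2, α = fun θ =>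
      (InnerProductSpace.toDual ℝ (E 2)).symm (fderiv ℝ (fun y => g θ (C.map y)) p) :=
    ⟨_, rfl⟩
  have hαinner : ∀ θ v, inner ℝ (α θ) v = fderiv ℝ (fun y => g θ (C.map y)) p v := by
    intro θ v
    rw [hαd]
    exact InnerProductSpace.toDual_symm_apply
  have hsm1 : StronglyMeasurable
      (fun θ : Sph 2 => fderiv ℝ (fun y => g θ (C.map y)) p) := by
    have h1 := hsm.comp_measurable (measurable_prodMk_left (x := p) (β := Sph 2))
    have e : (fun θ : Sph 2 => fderiv ℝ (fun y => g θ (C.map y)) p) =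
        (fun z : E 2 × Sph 2 =>
          open Classical in if z.1 ∈ C.U then fderiv ℝ (fun y => g z.2 (C.map y)) z.1 else 0) ∘
          Prod.mk p := by
      funext θ
      simp only [Function.comp_apply, if_pos hpU]
    rw [e]
    exact h1
  have hαm : StronglyMeasurable α := by
    rw [hαd]
    exact (InnerProductSpace.toDual ℝ (E 2)).symm.continuous.comp_stronglyMeasurable hsm1
  have hHas : ∀ᵐ θ ∂(sg 2), HasFDerivAt (g θ ∘ C.map) (innerSL ℝ (α θ)) p := by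
    filter_upwards [hdiff] with θ hθ
    have h1 : HasFDerivAt (g θ ∘ C.map) (fderiv ℝ (fun y => g θ (C.map y)) p) p := hθ.hasFDerivAt
    have e : innerSL ℝ (α θ) = fderiv ℝ (fun y => g θ (C.map y)) p := by
      ext v
      exact hαinner θ v
    rw [e]
    exact h1
  have hbd : ∀ᵐ θ ∂(sg 2), ∀ v, |inner ℝ (α θ) v| ≤ gnorm (C.G p) v := by
    filter_upwards [hHas] with θ hθ v
    refine fderiv_bound hθ (fun ε hε => ?_) v
    obtain ⟨r, hr, h⟩ := hloc p hpU ε hε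
    exact ⟨r, hr, fun y hy => h θ y hy p (mem_ball_self hr)⟩
  -- the derivative of the integral
  obtain ⟨r, hr, K, hK⟩ := hlip p hpU
  have hI := hasFDerivAt_integral_of_dominated_loc_of_lip' (𝕜 := ℝ) (μ := sg 2)
    (s := ball p r) (x₀ := p) (F := fun y (θ : Sph 2) => g θ (C.map y) • (θ : E 2))
    (F' := fun θ : Sph 2 => (innerSL ℝ (α θ)).smulRight (θ : E 2))
    (bound := fun _ => K) (ball_mem_nhds p hr) ?_ ?_ ?_ ?_ ?_ ?_
  · obtain ⟨hInt, hD⟩ := hI
    refine ⟨α, hαm.measurable, hHas, hbd,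
      ∫ θ : Sph 2, (innerSL ℝ (α θ)).smulRight (θ : E 2) ∂(sg 2), fun v => ?_, hD⟩
    exact ContinuousLinearMap.integral_apply hInt v
  · intro x _
    exact (hcont2 _).aestronglyMeasurable
  · exact (hcont2 _).integrable_of_hasCompactSupport (HasCompactSupport.of_compactSpace _)
  · have h1 : StronglyMeasurable (fun θ : Sph 2 => innerSL ℝ (α θ)) :=
      (innerSL ℝ).continuous.comp_stronglyMeasurable hαm
    have h2 : StronglyMeasurable (fun θ : Sph 2 => (θ : E 2)) :=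
      continuous_subtype_val.stronglyMeasurable
    exact ((ContinuousLinearMap.smulRightL ℝ (E 2)
      (E 2)).continuous₂.comp_stronglyMeasurable (h1.prodMk h2)).aestronglyMeasurable
  · refine Eventually.of_forall fun θ x hx => ?_
    rw [← sub_smul, norm_smul, norm_sph, mul_one]
    exact hK θ x hx p (mem_ball_self hr)
  · exact integrable_const K
  · filter_upwards [hHas] with θ hθ
    exact hθ.smul_const (θ : E 2)

/-- the pointwise inequality in a chart -/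
theorem ptwp {k : E 2 → ℝ} {T : Finset ℝ} (hk : Adk k T) {M : Type} [MetricSpace M]
    (C : RChart 2 M) {bd : Sph 2 → M} {h : M → ℝ} {s : ℝ} {F : E 2 → E 2}
    {g : Sph 2 → M → ℝ} (hs0 : 0 < s) (hs1 : s < 1) (hF : FamB (d := 1) bd h s F g) {c : ℝ}
    (hc0 : 0 < c) (hc1 : c < 1)
    (hnull : ∀ ρ ∈ T, (volume : Measure (E 2)) {p | p ∈ C.U ∧ c * ‖Zg g (C.map p)‖ = ρ} = 0) :
    ∀ᵐ p ∂(volume : Measure (E 2)), p ∈ C.U →
      |∫ θ, (fderiv ℝ (Ph (fun z => k (c • z)) g θ ∘ C.map) p).det ∂(sg 2)| ≤ √(C.G p).det := by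
  have h2 := Pool.Agent.N581.P1_LINA.main
  have h3 := Pool.Agent.N935.P1ZF1.main
  have h4 := Pool.Agent.N979.CP.Fin.rad
  have hnull' : ∀ᵐ p ∂(volume : Measure (E 2)), ∀ ρ ∈ T,
      ¬ (p ∈ C.U ∧ c * ‖Zg g (C.map p)‖ = ρ) := by
    rw [Finset.eventually_all]
    intro ρ hρ
    rw [ae_iff]
    simpa using hnull ρ hρ
  filter_upwards [zdif C hF, hnull'] with p hp hpn hpU
  obtain ⟨α, hαm, hα1, hα2, L, hL, hZ⟩ := hp hpU
  obtain ⟨K, hK⟩ := alpha_bound hα2
  obtain ⟨Z, hZd⟩ : ∃ Z : E 2, Z = Zg g (C.map p) := ⟨_, rfl⟩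
  rw [← hZd] at hpn
  have hcZ : ‖c • Z‖ = c * ‖Z‖ := by rw [norm_smul, Real.norm_eq_abs, abs_of_pos hc0]
  have hT : ‖c • Z‖ ∉ T := fun hmem => hpn _ hmem ⟨hpU, hcZ.symm⟩
  have hdiff := hk.diff (c • Z) hT
  have hZle : ‖Z‖ ≤ zf 1 s := by rw [hZd]; exact hF.range (C.map p)
  have hzf : zf 1 s < 2 / Real.pi := by
    rw [← h3]
    exact (h4 1 le_rfl).2.1 ⟨hs0.le, hs1.le⟩ ⟨zero_le_one, le_rfl⟩ hs1
  have hZlt : ‖c • Z‖ < 2 / Real.pi := by
    rw [hcZ]
    nlinarith [norm_nonneg Z]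
  obtain ⟨kc, hkc⟩ : ∃ kc : E 2 → ℝ, kc = fun z => k (c • z) := ⟨_, rfl⟩
  -- derivative of `w ↦ kc (Ax θ w)`
  have hder : ∀ᵐ θ ∂(sg 2), HasFDerivAt (fun w => kc (Ax θ w))
      (c • fderiv ℝ (fun w => k (Ax θ w)) (c • Z)) Z := by
    filter_upwards [hdiff] with θ hθ
    have hA : DifferentiableAt ℝ (Ax θ) (c • Z) := by
      rw [Ax_fun]
      exact (AxL θ).differentiableAt
    have hc : DifferentiableAt ℝ (fun w => k (Ax θ w)) (c • Z) := hθ.comp (c • Z) hA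
    have hs : HasFDerivAt (fun w : E 2 => c • w) (c • ContinuousLinearMap.id ℝ (E 2)) Z :=
      (hasFDerivAt_id Z).const_smul c
    have h5 := hc.hasFDerivAt.comp Z hs
    have e1 : (fun w => kc (Ax θ w)) = (fun w => k (Ax θ w)) ∘ fun w : E 2 => c • w := by
      funext w
      rw [hkc]
      simp only [Function.comp_apply]
      rw [Ax_smul]
    have e7 : c • fderiv ℝ (fun w => k (Ax θ w)) (c • Z) =
        (fderiv ℝ (fun w => k (Ax θ w)) (c • Z)).comp (c • ContinuousLinearMap.id ℝ (E 2)) := by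
      ext v
      simp
    rw [e1, e7]
    exact h5
  have hint : ∫ θ, (fderiv ℝ (Ph (fun z => k (c • z)) g θ ∘ C.map) p).det ∂(sg 2) = Jk kc Z α := by
    unfold Jk
    apply integral_congr_ae
    filter_upwards [hα1, hder] with θ hθ hd
    rw [hZd] at hd
    have e1 : HasFDerivAt ((fun w => kc (Ax θ w)) ∘ (Zg g ∘ C.map)) _ p := HasFDerivAt.comp p hd hZ
    have e2 := (e1.smul_const (!₂[1, 0] : E 2)).add (hθ.smul_const (!₂[0, 1] : E 2))
    have e3 : (Ph (fun z => k (c • z)) g θ ∘ C.map) = fun y =>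
        ((fun w => kc (Ax θ w)) ∘ (Zg g ∘ C.map)) y • (!₂[1, 0] : E 2) +
          (g θ ∘ C.map) y • (!₂[0, 1] : E 2) := by
      funext y
      unfold Ph
      simp only [Function.comp_apply, hkc]
      exact pair_eq _ _
    rw [e3]
    have e4 := e2.fderiv
    rw [show (fun y => ((fun w => kc (Ax θ w)) ∘ (Zg g ∘ C.map)) y • (!₂[1, 0] : E 2) +
          (g θ ∘ C.map) y • (!₂[0, 1] : E 2)) = ((fun y => ((fun w => kc (Ax θ w)) ∘
          (Zg g ∘ C.map)) y • (!₂[1, 0] : E 2)) + fun y =>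
          (g θ ∘ C.map) y • (!₂[0, 1] : E 2)) from rfl, e4]
    refine det_pair _ _ _ _ (fun v => ?_) (fun v => by simp)
    rw [← hZd] at hd ⊢
    rw [hd.fderiv, ContinuousLinearMap.comp_apply, hL v]
    exact apply_integral hαm hK _ v
  rw [hint]
  have hlip : ∃ K : NNReal, LipschitzWith K kc := by
    obtain ⟨K₀, hK₀⟩ := hk.lip
    refine ⟨K₀ * ‖c‖₊, ?_⟩
    rw [hkc]
    exact hK₀.comp (lipschitzWith_smul c)
  obtain ⟨a, ham, ha1, ha2⟩ := h2 kc Z α (C.G p) hlip hαm (C.pos_G p hpU) hα2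
  rw [ha2]
  have hJ : Jk kc Z a = c * Jk k (c • Z) a := by
    unfold Jk
    rw [← integral_const_mul]
    apply integral_congr_ae
    filter_upwards [hder] with θ hd
    rw [hd.fderiv, ← dt_smul, ← integral_smul]
    congr 1
    refine integral_congr_ae (Eventually.of_forall fun θ' => ?_)
    simp only [_root_.smul_apply, smul_smul, smul_eq_mul]
  have hJ1 : |Jk kc Z a| ≤ 1 := by
    rw [hJ, abs_mul, abs_of_pos hc0]
    have h6 := hk.com (c • Z) hT hZlt a ham ha1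
    have h7 := abs_nonneg (Jk k (c • Z) a)
    nlinarith
  calc √(C.G p).det * |Jk kc Z a| ≤ √(C.G p).det * 1 :=
        mul_le_mul_of_nonneg_left hJ1 (Real.sqrt_nonneg _)
    _ = _ := mul_one _

/-- generic scaling -/
theorem lev {M : Type} [MetricSpace M] {bd : Sph 2 → M} {N : Set M} (S : NFill 2 M bd N)
    {h : M → ℝ} {s : ℝ} {F : E 2 → E 2} {g : Sph 2 → M → ℝ} (hg : FamB (d := 1) bd h s F g)
    {T : Finset ℝ} (hT : ∀ ρ ∈ T, 0 < ρ) {c₀ : ℝ} (hc₀ : c₀ < 1) :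
    ∃ c : ℝ, c₀ < c ∧ 0 < c ∧ c < 1 ∧ ∀ i, ∀ ρ ∈ T,
      (volume : Measure (E 2)) {p | p ∈ (S.chart i).U ∧ c * ‖Zg g ((S.chart i).map p)‖ = ρ} = 0 := by
  have hprob : IsProbabilityMeasure (sg (1 + 1)) := (SPH.t 1 le_rfl).1
  have hlip : ∀ q q' : M, ‖Zg g q - Zg g q'‖ ≤ dist q q' := fun q q' => int_lip (d := 1) hg q q'
  have hZc : Continuous (Zg g : M → E 2) := by
    refine (LipschitzWith.of_dist_le_mul (K := 1) fun q q' => ?_).continuous
    rw [dist_eq_norm, NNReal.coe_one, one_mul]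
    exact hlip q q'
  have hf : ∀ i, ContinuousOn (fun p => ‖Zg g ((S.chart i).map p)‖) (S.chart i).U := by
    intro i p hp
    have h : ContinuousAt (fun p => ‖Zg g ((S.chart i).map p)‖) p :=
      (hZc.continuousAt.comp (LOC.chart_cont (S.chart i) hp)).norm
    exact h.continuousWithinAt
  -- the bad numbers
  have hbad : ∀ i, ∀ ρ ∈ T, {c : ℝ | 0 < c ∧ 0 < (volume : Measure (E 2))
      {p | p ∈ (S.chart i).U ∧ c * ‖Zg g ((S.chart i).map p)‖ = ρ}}.Countable := by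
    intro i ρ hρ
    have hU : MeasurableSet (S.chart i).U := (S.chart i).isOpen_U.measurableSet
    have hm : AEMeasurable (fun p => ‖Zg g ((S.chart i).map p)‖)
        ((volume : Measure (E 2)).restrict (S.chart i).U) := (hf i).aemeasurable hU
    have hcount := Measure.countable_meas_level_set_pos₀ (μ := (volume : Measure (E 2)).restrict (S.chart i).U)
      hm.nullMeasurable
    refine Set.MapsTo.countable_of_injOn (f := fun c : ℝ => ρ / c) ?_ ?_ hcount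
    · rintro c ⟨hc, hc'⟩
      show 0 < ((volume : Measure (E 2)).restrict (S.chart i).U)
        {p | ‖Zg g ((S.chart i).map p)‖ = ρ / c}
      rw [Measure.restrict_apply' hU]
      refine lt_of_lt_of_le hc' (measure_mono ?_)
      rintro p ⟨hp, hp'⟩
      refine ⟨?_, hp⟩
      show ‖Zg g ((S.chart i).map p)‖ = ρ / c
      rw [eq_div_iff hc.ne', mul_comm]
      exact hp'
    · rintro c ⟨hc, _⟩ c' ⟨hc', _⟩ h
      have h1 : ρ / c = ρ / c' := h
      have hρ0 := hT ρ hρ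
      rw [div_eq_div_iff hc.ne' hc'.ne'] at h1
      exact (mul_left_cancel₀ hρ0.ne' h1).symm
  have hB : (⋃ i, ⋃ ρ ∈ T, {c : ℝ | 0 < c ∧ 0 < (volume : Measure (E 2))
      {p | p ∈ (S.chart i).U ∧ c * ‖Zg g ((S.chart i).map p)‖ = ρ}}).Countable := by
    refine Set.countable_iUnion fun i => ?_
    exact (Finset.countable_toSet T).biUnion fun ρ hρ => hbad i ρ hρ
  obtain ⟨c, hcB, hc1, hc2⟩ := (hB.dense_compl ℝ).exists_between
    (show max c₀ 0 < 1 from max_lt hc₀ one_pos)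
  refine ⟨c, (le_max_left _ _).trans_lt hc1, (le_max_right _ _).trans_lt hc1, hc2, ?_⟩
  intro i ρ hρ
  by_contra hne
  refine hcB ?_
  refine Set.mem_iUnion.2 ⟨i, Set.mem_iUnion₂.2 ⟨ρ, hρ, ?_⟩⟩
  exact ⟨(le_max_right _ _).trans_lt hc1, pos_iff_ne_zero.2 hne⟩

/-- the Lipschitz properties -/
theorem lipp {k : E 2 → ℝ} (hk : ∃ K : NNReal, LipschitzWith K k) (hk0 : k 0 = 0)
    {M : Type} [MetricSpace M] {bd : Sph 2 → M} {h : M → ℝ} (hh0 : ∀ q, 0 ≤ h q) {s : ℝ}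
    {g : Sph 2 → M → ℝ} (hs0 : 0 < s) (hs1 : s < 1)
    (hg : FamB (d := 1) bd h s (fun y => s • y) g) :
    ∃ K : NNReal, (∀ θ, Cl h K (Ph k g θ)) ∧
    (∀ θ : Sph 2, LipschitzOnWith K (Ph0 k s θ) (closedBall 0 1)) ∧
    (∀ (θ x : Sph 2), Ph k g θ (bd x) = Ph0 k s θ (x : E 2)) ∧
    Continuous (fun z : Sph 2 × M => Ph k g z.1 z.2) := by
  obtain ⟨Kk, hk⟩ := hk
  obtain ⟨hP, -, -⟩ := SPH.t 1 le_rfl
  have hP' : IsProbabilityMeasure (sg (1 + 1)) := hP
  obtain ⟨r1, -, -, -⟩ := RAD.t SPH.t (MON.t SPH.t) 1 le_rfl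
  have hZl : ∀ q q', ‖Zg g q - Zg g q'‖ ≤ dist q q' := fun q q' => int_lip (d := 1) hg q q'
  have hkA : ∀ (θ : Sph 2) (z z' : E 2), |k (Ax θ z) - k (Ax θ z')| ≤ 2 * Kk * ‖z - z'‖ := by
    intro θ z z'
    have h1 := hk.dist_le_mul (Ax θ z) (Ax θ z')
    rw [Real.dist_eq, dist_eq_norm] at h1
    refine h1.trans ?_
    calc (Kk : ℝ) * ‖Ax θ z - Ax θ z'‖ ≤ Kk * (2 * ‖z - z'‖) :=
          mul_le_mul_of_nonneg_left (Ax_sub θ z z') (NNReal.coe_nonneg _)
      _ = 2 * Kk * ‖z - z'‖ := by ring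
  obtain ⟨b, hb⟩ : ∃ b, b = (√(1 - s ^ 2))⁻¹ := ⟨_, rfl⟩
  have hb0 : 0 ≤ b := by rw [hb]; positivity
  have hKk : (0 : ℝ) ≤ Kk := NNReal.coe_nonneg _
  have hz0 : 0 ≤ |zf 1 s| := abs_nonneg _
  obtain ⟨K, hK⟩ : ∃ K : ℝ, K = 2 * Kk + 1 + 2 * Kk * |zf 1 s| + b := ⟨_, rfl⟩
  have p1 : 0 ≤ 2 * (Kk : ℝ) := by positivity
  have p2 : 0 ≤ 2 * (Kk : ℝ) * |zf 1 s| := by positivity
  have hKp : 0 ≤ K := by rw [hK]; linarith
  have hbdv : ∀ (θ x : Sph 2), g θ (bd x) = Real.arcsin (s * inner ℝ (x : E 2) (θ : E 2)) := by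
    intro θ x
    have h4 := hg.bdv θ x
    rw [h4, inner_smul_left]
    rfl
  refine ⟨⟨K, hKp⟩, fun θ => ⟨?_, ?_⟩, fun θ => ?_, fun θ x => ?_, ?_⟩
  · refine LipschitzWith.of_dist_le_mul fun q q' => ?_
    rw [dist_eq_norm]
    change ‖Ph k g θ q - Ph k g θ q'‖ ≤ K * dist q q'
    unfold Ph
    refine (vec_sub _ _ _ _).trans ?_
    have h1 := hkA θ (Zg g q) (Zg g q')
    have h2 := hg.lip θ q q'
    have h3 : 2 * (Kk : ℝ) * ‖Zg g q - Zg g q'‖ ≤ 2 * Kk * dist q q' :=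
      mul_le_mul_of_nonneg_left (hZl q q') p1
    have h4 : (2 * (Kk : ℝ) + 1) * dist q q' ≤ K * dist q q' :=
      mul_le_mul_of_nonneg_right (by rw [hK]; linarith) dist_nonneg
    linarith
  · intro q
    change ‖Ph k g θ q‖ ≤ K * h q
    unfold Ph
    have e0 : ‖(!₂[k (Ax θ (Zg g q)), g θ q] : E 2)‖ ≤ |k (Ax θ (Zg g q))| + |g θ q| := by
      have := nrm2 (!₂[k (Ax θ (Zg g q)), g θ q] : E 2)
      simpa using this
    have e1 := hkA θ (Zg g q) 0
    have e2 : Ax θ (0 : E 2) = 0 := by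
      unfold Ax
      ext i
      fin_cases i <;> simp
    rw [e2, hk0, sub_zero, sub_zero] at e1
    have e3 : ‖Zg g q‖ ≤ h q := int_le (d := 1) hg q
    have e4 := hg.le θ q
    have e5 : 2 * (Kk : ℝ) * ‖Zg g q‖ ≤ 2 * Kk * h q := mul_le_mul_of_nonneg_left e3 p1
    have e6 : (2 * (Kk : ℝ) + 1) * h q ≤ K * h q :=
      mul_le_mul_of_nonneg_right (by rw [hK]; linarith) (hh0 q)
    linarith
  · refine LipschitzOnWith.of_dist_le_mul fun y hy y' hy' => ?_
    rw [dist_eq_norm, dist_eq_norm]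
    change ‖Ph0 k s θ y - Ph0 k s θ y'‖ ≤ K * ‖y - y'‖
    unfold Ph0
    refine (vec_sub _ _ _ _).trans ?_
    have h1 := hkA θ (zf 1 s • y) (zf 1 s • y')
    rw [← smul_sub, norm_smul, Real.norm_eq_abs] at h1
    have hin : ∀ w ∈ closedBall (0 : E 2) 1, |s * inner ℝ w (θ : E 2)| ≤ s := by
      intro w hw
      rw [abs_mul, abs_of_pos hs0]
      have h5 := abs_real_inner_le_norm w (θ : E 2)
      rw [norm_sph, mul_one] at h5
      have h6 : ‖w‖ ≤ 1 := mem_closedBall_zero_iff.1 hw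
      nlinarith
    have h2 := asin_lip hs0 hs1 (hin y hy) (hin y' hy')
    rw [← hb] at h2
    have h3 : |s * inner ℝ y (θ : E 2) - s * inner ℝ y' (θ : E 2)| ≤ ‖y - y'‖ := by
      rw [← mul_sub, ← inner_sub_left, abs_mul, abs_of_pos hs0]
      have h5 := abs_real_inner_le_norm (y - y') (θ : E 2)
      rw [norm_sph, mul_one] at h5
      nlinarith [norm_nonneg (y - y'), abs_nonneg (inner ℝ (y - y') (θ : E 2))]
    have h4 := h2.trans (mul_le_mul_of_nonneg_left h3 hb0)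
    have h5 : (2 * (Kk : ℝ) * |zf 1 s| + b) * ‖y - y'‖ ≤ K * ‖y - y'‖ :=
      mul_le_mul_of_nonneg_right (by rw [hK]; linarith) (norm_nonneg _)
    linarith
  · have hx1 : ‖(x : E (1 + 1))‖ = 1 := norm_sph x
    have h1 : Zg g (bd x) = zf 1 s • (x : E 2) := by
      have h2 := r1 s (x : E (1 + 1)) hx1
      have h3 : Zg g (bd x) = Zf (s • (x : E (1 + 1))) := by
        unfold Zg Zf
        congr 1
        funext θ
        have h4 := hbdv θ x
        have h5 : g θ (bd x) = Real.arcsin (ip (s • (x : E (1 + 1))) θ) := by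
          rw [h4]
          unfold ip
          rw [real_inner_smul_left]
        rw [h5]
      rw [h3]
      exact h2
    unfold Ph Ph0
    rw [h1]
    rw [hbdv θ x]
  · have c1 : Continuous (fun z : Sph 2 × M => Zg g z.2) := by
      have h1 : LipschitzWith 1 (Zg g) :=
        LipschitzWith.of_dist_le_mul fun q q' => by
          rw [dist_eq_norm, NNReal.coe_one, one_mul]
          exact hZl q q'
      exact h1.continuous.comp continuous_snd
    have c2 : Continuous (fun z : Sph 2 × M => (z.1 : E 2)) :=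
      continuous_subtype_val.comp continuous_fst
    have c3 : Continuous (fun z : Sph 2 × M => Ax z.1 (Zg g z.2)) := by
      unfold Ax
      exact cont_vec (c1.inner c2) (c1.inner (cont_Jr.comp c2))
    have c4 : Continuous (fun z : Sph 2 × M => g z.1 z.2) := cont_g (d := 1) hg
    unfold Ph
    exact cont_vec (hk.continuous.comp c3) c4

/-- the lower bound for a given `s` -/
theorem mainp {k : E 2 → ℝ} {T : Finset ℝ} (hk : Adk k T) {M : Type} [MetricSpace M]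
    {bd : Sph 2 → M} {N : Set M} (S : NFill 2 M bd N) {h : M → ℝ} (hh : Hgt N h)
    (hhb : ∀ x, Real.pi / 2 ≤ h (bd x))
    (hang : ∀ x y : Sph 2, angle (x : E 2) (y : E 2) ≤ dist (bd x) (bd y))
    {s : ℝ} (hs0 : 0 < s) (hs1 : s < 1) {c₀ : ℝ} (hc₀ : c₀ < 1) :
    ∃ c : ℝ, c₀ < c ∧ 0 < c ∧ c < 1 ∧ ENNReal.ofReal (Vk k s c) ≤ S.vol := by
  by_cases hvol : S.vol = ⊤
  · rw [hvol]
    refine ⟨(max c₀ 0 + 1) / 2, ?_, ?_, ?_, le_top⟩
    · have := le_max_left c₀ 0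
      linarith
    · have := le_max_right c₀ 0
      linarith
    · have : max c₀ 0 < 1 := max_lt hc₀ one_pos
      linarith
  have hvol' : S.vol < ⊤ := lt_top_iff_ne_top.2 hvol
  -- the family
  have hnx : ∀ x : Sph 2, ‖s • (x : E 2)‖ = s := by
    intro x
    rw [norm_smul, norm_sph, mul_one, Real.norm_of_nonneg hs0.le]
  have hdist : ∀ x y : Sph 2, hdist (s • (x : E 2)) (s • (y : E 2)) ≤ dist (bd x) (bd y) := by
    intro x y
    refine le_trans ?_ (hang x y)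
    unfold hdist angle
    have hx : ‖(x : E 2)‖ = 1 := norm_sph x
    have hy : ‖(y : E 2)‖ = 1 := norm_sph y
    rw [hnx, hnx, hx, hy, one_mul, div_one]
    apply Real.arccos_le_arccos
    have h1 : inner ℝ (x : E 2) (y : E 2) ≤ 1 := by
      have := real_inner_le_norm (x : E 2) (y : E 2)
      rwa [hx, hy, one_mul] at this
    rw [Real.mul_self_sqrt (by nlinarith), inner_smul_left, inner_smul_right]
    simp only [conj_trivial]
    have h2 : 0 ≤ 1 - s ^ 2 := by nlinarith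
    have h3 := mul_nonneg h2 (sub_nonneg.2 h1)
    linarith
  obtain ⟨g, hg⟩ := fam_exists (d := 1) le_rfl bd hs0 hs1 (fun y => s • y)
    (fun x => (hnx x).le) hdist h hh.nonneg hh.lip
    (fun x => (Real.arcsin_le_pi_div_two _).trans (hhb x))
  obtain ⟨c, hc1, hc2, hc3, hlev⟩ := lev S hg hk.pos hc₀
  refine ⟨c, hc1, hc2, hc3, ?_⟩
  -- the function
  obtain ⟨K₀, hK₀⟩ := hk.lip
  have hlip : ∃ K : NNReal, LipschitzWith K fun z : E 2 => k (c • z) :=
    ⟨_, hK₀.comp (lipschitzWith_smul c)⟩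
  have hodd : ∀ z : E 2, (fun z : E 2 => k (c • z)) !₂[z 0, -(z 1)] =
      -(fun z : E 2 => k (c • z)) z := by
    intro z
    have := hk.odd (c • z)
    change k (c • !₂[z 0, -(z 1)]) = -k (c • z)
    rw [smul_vec, ← this]
    congr 1
    ext i
    fin_cases i <;> simp
  have hk0 : (fun z : E 2 => k (c • z)) 0 = 0 := by
    have h5 := hk.odd 0
    have h6 : (!₂[(0 : E 2) 0, -((0 : E 2) 1)] : E 2) = 0 := by
      ext i
      fin_cases i <;> simp
    rw [h6] at h5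
    simp only [smul_zero]
    linarith
  obtain ⟨K, hK1, hK2, hK3, hK4⟩ := lipp hlip hk0 hh.nonneg hs0 hs1 hg
  obtain ⟨hprob, -, -⟩ := SPH.t 1 le_rfl
  have := hprob
  -- Stokes
  have hst : ∀ θ, jn S (Ph (fun z => k (c • z)) g θ) =
      ∫ y in ball (0 : E 2) 1, (fderiv ℝ (Ph0 (fun z => k (c • z)) s θ) y).det := fun θ =>
    Sto.t (by omega) S hvol' hh (hK1 θ) (hK2 θ) (fun x => hK3 θ x)
  -- Fubini
  obtain ⟨hF2, hF3⟩ := fub (d := 1) S hvol' K (Ph (fun z => k (c • z)) g)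
    (fun θ => (hK1 θ).lip) hK4
  have hval := Pool.Agent.N530.P1.main (fun z => k (c • z)) hlip hodd s hs0 hs1
  have e1 : Vk k s c = ∑ i, ∫ p in (S.chart i).D,
      -(∫ θ, (fderiv ℝ (Ph (fun z => k (c • z)) g θ ∘ (S.chart i).map) p).det ∂(sg 2)) := by
    have e2 : Vk k s c = -∫ θ, jn S (Ph (fun z => k (c • z)) g θ) ∂(sg 2) := by
      simp only [hst]
      rw [hval, neg_neg]
      unfold Vk
      congr 1
      refine intervalIntegral.integral_congr fun x _ => ?_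
      simp only [smul_vec, mul_assoc]
    rw [e2]
    have e3 : ∫ θ, jn S (Ph (fun z => k (c • z)) g θ) ∂(sg 2) =
        ∑ i, ∫ p in (S.chart i).D,
          ∫ θ, (fderiv ℝ (Ph (fun z => k (c • z)) g θ ∘ (S.chart i).map) p).det ∂(sg 2) := hF3
    rw [e3, ← Finset.sum_neg_distrib]
    exact Finset.sum_congr rfl fun i _ => (integral_neg _).symm
  rw [e1]
  refine (MAINb.ofReal_sum_le _ _).trans ?_
  unfold NFill.vol
  refine Finset.sum_le_sum fun i _ => ?_
  refine (MAINb.ofReal_integral_le (hF2 i).neg).trans ?_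
  refine lintegral_mono_ae ?_
  have h2' := ae_restrict_of_ae (s := (S.chart i).D)
    (ptwp hk (S.chart i) hs0 hs1 hg hc2 hc3 (hlev i))
  filter_upwards [h2', ae_restrict_mem (S.chart i).meas_D] with p hp hpD
  exact ENNReal.ofReal_le_ofReal ((neg_le_abs _).trans (hp ((S.chart i).D_sub hpD)))

/-- the lower bound -/
theorem finp {k : E 2 → ℝ} {T : Finset ℝ} (hk : Adk k T) {M : Type} [MetricSpace M]
    {bd : Sph 2 → M} {N : Set M} (S : NFill 2 M bd N) {h : M → ℝ} (hh : Hgt N h)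
    (hhb : ∀ x, Real.pi / 2 ≤ h (bd x))
    (hang : ∀ x y : Sph 2, angle (x : E 2) (y : E 2) ≤ dist (bd x) (bd y)) :
    ENNReal.ofReal (2 * (∫ v in (0 : ℝ)..Real.pi,
      k !₂[2 / Real.pi * Real.cos v, 2 / Real.pi * Real.sin v])) ≤ S.vol := by
  refine ENNReal.le_of_forall_pos_le_add fun ε hε _ => ?_
  obtain ⟨s, hs0, hs1, c₀, hc₀, h⟩ :=
    Pool.Agent.N441.P1_LIMP.main Pool.Agent.N935.P1ZF1.main k hk.lip (ε : ℝ) (by exact_mod_cast hε)
  obtain ⟨c, hc, hc0, hc1, hv⟩ := mainp hk S hh hhb hang hs0 hs1 hc₀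
  have h3 := h c hc hc0 hc1
  have h4 : 2 * (∫ v in (0 : ℝ)..Real.pi,
      k !₂[2 / Real.pi * Real.cos v, 2 / Real.pi * Real.sin v]) ≤ Vk k s c + ε := by linarith
  refine (ENNReal.ofReal_le_ofReal h4).trans (ENNReal.ofReal_add_le.trans ?_)
  rw [ENNReal.ofReal_coe_nnreal]
  gcongr

open Pool.Agent.N979.P1.FinB in
/-- the area of the part near the boundary -/
theorem area {M : Type} [MetricSpace M] [ProperSpace M] {bd : Sph 2 → M}
    (S : NFill 2 M bd (near bd fun _ => Real.pi / 2))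
    (hang : ∀ x y : Sph 2, angle (x : E 2) (y : E 2) ≤ dist (bd x) (bd y)) :
    ENNReal.ofReal (1.96 * Real.pi) ≤ S.vol := by
  have hne : Nonempty (Sph 2) := nonempty_sph 1
  have hh : Hgt (near bd fun _ => Real.pi / 2) (hgt bd fun _ => Real.pi / 2) :=
    isHgt (B := Real.pi / 2) (fun _ => le_rfl) (isCompact_range (bd_cont S)).isBounded
  have hhb : ∀ x, Real.pi / 2 ≤ hgt bd (fun _ => Real.pi / 2) (bd x) := by
    intro x
    have := le_hgt (bd := bd) (r := fun _ => Real.pi / 2) (B := Real.pi / 2) (fun _ => le_rfl)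
      (bd x) x
    rwa [dist_self, sub_zero] at this
  have hcert := Pool.Agent.N712.P1B_CERT.main
    (Pool.Agent.N954.P1B.All.main Pool.Agent.N937.P1B_BND.main)
  have hv := Pool.Agent.N189.P1BVALN.main
  have h1 := Pool.Agent.N979.P1.Fin.endp Pool.Agent.N669.P1_JPOL.main _ _
    Pool.Agent.N979.P1.B.datQ.toDat ((Pool.Agent.N979.P1.B.RrQ : ℚ) : ℝ) hcert.1 hcert.2
  have h2 := finp h1 S hh hhb hang
  have h3 := Pool.Agent.N451.P1VALD.main _ _ Pool.Agent.N979.P1.B.datQ.toDat hcert.2.pos hv.1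
    hcert.2.tpos
  rw [h3] at h2
  refine (ENNReal.ofReal_le_ofReal ?_).trans h2
  have h4 := hv.2
  rw [show (1.96 : ℝ) = 196 / 100 by norm_num]
  exact h4

end Pool.Agent.H780.NV.P1
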