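import Pool.Agent.H780.NV.Tel

/-!
# Stokes (after `STO` of the library)
-/

set_option autoImplicit false

open MeasureTheory Metric Set Filter Topology InnerProductGeometry Matrix

namespace Pool.Agent.H780.NV.Sto

open Pool.Agent.H241R3.FV Pool.Agent.N526.CP Pool.Agent.H780.NV
open Pool.Agent.N526.CP.STO (eta eta_nonneg eta_le_one eta_one eta_zero eta_lip w1 w1_bdd w1_lip
  chart_cont det_zero)

noncomputable section

variable {n : ℕ}

variable {M : Type} [MetricSpace M] {bd : Sph n → M} {N : Set M}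

open Classical in
/-- the transplanted map -/
def v1 (S : NFill n M bd N) (g : E n → E n) (q : M) : E n :=
  if h : ∃ x : E n, (S.r < ‖x‖ ∧ ‖x‖ ≤ 1) ∧ S.col x = q then g h.choose else 0

theorem col_inj (S : NFill n M bd N) {x y : E n} (hx : S.r < ‖x‖ ∧ ‖x‖ ≤ 1)
    (hy : S.r < ‖y‖ ∧ ‖y‖ ≤ 1) (h : S.col x = S.col y) : x = y := by
  obtain ⟨K, hK⟩ := S.col_lip
  have h1 := (hK x y hx.1 hx.2 hy.1 hy.2).2
  rw [h, dist_self, mul_zero] at h1
  exact sub_eq_zero.1 (norm_le_zero_iff.1 h1)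

theorem v1_col (S : NFill n M bd N) (g : E n → E n) {x : E n} (hx : S.r < ‖x‖ ∧ ‖x‖ ≤ 1) :
    v1 S g (S.col x) = g x := by
  have h : ∃ y : E n, (S.r < ‖y‖ ∧ ‖y‖ ≤ 1) ∧ S.col y = S.col x := ⟨x, hx, rfl⟩
  unfold v1
  rw [dif_pos h]
  congr 1
  exact col_inj S h.choose_spec.1 hx h.choose_spec.2

theorem v1_off (S : NFill n M bd N) (g : E n → E n) {q : M}
    (hq : ¬ ∃ x : E n, (S.r < ‖x‖ ∧ ‖x‖ ≤ 1) ∧ S.col x = q) : v1 S g q = 0 := by
  unfold v1
  rw [dif_neg hq]

/-- the compact set which carries the transplanted map -/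
def A' (S : NFill n M bd N) (r' : ℝ) : Set M := S.col '' {x | r' ≤ ‖x‖ ∧ ‖x‖ ≤ 1}

theorem col_cont (S : NFill n M bd N) : ContinuousOn S.col {x | S.r < ‖x‖ ∧ ‖x‖ ≤ 1} := by
  obtain ⟨K, hK⟩ := S.col_lip
  have h : LipschitzOnWith (Real.toNNReal (max K 0)) S.col {x | S.r < ‖x‖ ∧ ‖x‖ ≤ 1} := by
    refine LipschitzOnWith.of_dist_le_mul fun x hx y hy => ?_
    rw [Real.coe_toNNReal _ (le_max_right _ _), dist_eq_norm x y]
    exact ((hK x y hx.1 hx.2 hy.1 hy.2).1).trans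
      (mul_le_mul_of_nonneg_right (le_max_left _ _) (norm_nonneg _))
  exact h.continuousOn

theorem A'_compact (S : NFill n M bd N) {r' : ℝ} (hr : S.r < r') : IsCompact (A' S r') := by
  have h : IsCompact {x : E n | r' ≤ ‖x‖ ∧ ‖x‖ ≤ 1} := by
    have e : {x : E n | r' ≤ ‖x‖ ∧ ‖x‖ ≤ 1} = closedBall 0 1 ∩ {x | r' ≤ ‖x‖} := by
      ext x
      simp [and_comm]
    rw [e]
    exact (isCompact_closedBall 0 1).inter_right (isClosed_le continuous_const continuous_norm)
  exact h.image_of_continuousOn ((col_cont S).mono fun x hx => ⟨hr.trans_le hx.1, hx.2⟩)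

theorem v1_zero (S : NFill n M bd N) {r' : ℝ} (hr1 : r' < 1) (w : E n → E n) {q : M}
    (hq : q ∉ A' S r') : v1 S (w1 r' w) q = 0 := by
  by_cases h : ∃ x : E n, (S.r < ‖x‖ ∧ ‖x‖ ≤ 1) ∧ S.col x = q
  · obtain ⟨x, hx, rfl⟩ := h
    rw [v1_col S _ hx]
    have : ‖x‖ < r' := by
      by_contra hc
      exact hq ⟨x, ⟨not_lt.1 hc, hx.2⟩, rfl⟩
    unfold w1
    rw [eta_zero hr1 this.le, zero_smul]
  · exact v1_off S _ h

theorem v1_lip (S : NFill n M bd N) {r' : ℝ} (hr : S.r < r') (hr1 : r' < 1) {K : NNReal}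
    {w : E n → E n} (hw : LipschitzOnWith K w (closedBall 0 1)) :
    ∃ K2 : NNReal, LipschitzWith K2 (v1 S (w1 r' w)) := by
  obtain ⟨Kc, hK⟩ := S.col_lip
  obtain ⟨δ, hδ, hδ2⟩ := (A'_compact S hr).exists_thickening_subset_open S.col_open
    (image_mono fun x hx => ⟨hr.trans_le hx.1, hx.2⟩)
  set K1 : ℝ := K + (‖w 0‖ + K) / (1 - r') with hK1
  set B : ℝ := ‖w 0‖ + K with hB
  have hB0 : 0 ≤ B := add_nonneg (norm_nonneg _) K.2
  have hK10 : 0 ≤ K1 := add_nonneg K.2 (div_nonneg hB0 (by linarith))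
  set C : ℝ := K1 * max Kc 0 + B / δ with hC
  have hC0 : 0 ≤ C := add_nonneg (mul_nonneg hK10 (le_max_right _ _)) (div_nonneg hB0 hδ.le)
  have key : ∀ q q' : M, (∃ x : E n, (S.r < ‖x‖ ∧ ‖x‖ ≤ 1) ∧ S.col x = q) →
      ‖v1 S (w1 r' w) q - v1 S (w1 r' w) q'‖ ≤ C * dist q q' := by
    rintro q q' ⟨x, hx, rfl⟩
    by_cases h' : ∃ y : E n, (S.r < ‖y‖ ∧ ‖y‖ ≤ 1) ∧ S.col y = q'
    · obtain ⟨y, hy, rfl⟩ := h'
      rw [v1_col S _ hx, v1_col S _ hy]
      have h1 := (hK x y hx.1 hx.2 hy.1 hy.2).2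
      calc ‖w1 r' w x - w1 r' w y‖ ≤ K1 * ‖x - y‖ := w1_lip hr1 hw hx.2 hy.2
        _ ≤ K1 * (max Kc 0 * dist (S.col x) (S.col y)) := by
            refine mul_le_mul_of_nonneg_left (h1.trans ?_) hK10
            exact mul_le_mul_of_nonneg_right (le_max_left _ _) dist_nonneg
        _ ≤ C * dist (S.col x) (S.col y) := by
            rw [← mul_assoc]
            refine mul_le_mul_of_nonneg_right ?_ (dist_nonneg (x := S.col x) (y := S.col y))
            rw [hC]
            exact le_add_of_nonneg_right (div_nonneg hB0 hδ.le)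
    · rw [v1_off S _ h', sub_zero]
      by_cases hA : S.col x ∈ A' S r'
      · have h1 : δ ≤ dist (S.col x) q' := by
          by_contra hc
          have h2 : q' ∈ thickening δ (A' S r') := by
            rw [mem_thickening_iff]
            exact ⟨S.col x, hA, by rw [dist_comm]; exact not_le.1 hc⟩
          obtain ⟨y, hy, hyq⟩ := hδ2 h2
          exact h' ⟨y, hy, hyq⟩
        rw [v1_col S _ hx]
        calc ‖w1 r' w x‖ ≤ B := (w1_bdd hr1 hw hx.2).2
          _ = B / δ * δ := by field_simp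
          _ ≤ B / δ * dist (S.col x) q' := mul_le_mul_of_nonneg_left h1 (div_nonneg hB0 hδ.le)
          _ ≤ C * dist (S.col x) q' := by
            rw [hC, add_mul]
            exact le_add_of_nonneg_left (mul_nonneg (mul_nonneg hK10 (le_max_right _ _))
              dist_nonneg)
      · rw [v1_zero S hr1 w hA, norm_zero]
        exact mul_nonneg hC0 dist_nonneg
  refine ⟨⟨C, hC0⟩, LipschitzWith.of_dist_le_mul fun q q' => ?_⟩
  rw [dist_eq_norm]
  show _ ≤ C * dist q q'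
  by_cases h : ∃ x : E n, (S.r < ‖x‖ ∧ ‖x‖ ≤ 1) ∧ S.col x = q
  · exact key q q' h
  · by_cases h' : ∃ x : E n, (S.r < ‖x‖ ∧ ‖x‖ ≤ 1) ∧ S.col x = q'
    · rw [norm_sub_rev, dist_comm]
      exact key q' q h'
    · rw [v1_off S _ h, v1_off S _ h', sub_zero, norm_zero]
      exact mul_nonneg hC0 dist_nonneg

theorem A'_sub (S : NFill n M bd N) {r' : ℝ} (hr : S.r < r') : A' S r' ⊆ N := by
  rintro _ ⟨x, hx, rfl⟩
  obtain ⟨j, hjU, hjm⟩ := S.col_chart
  rcases lt_or_eq_of_le hx.2 with hx1 | hx1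
  · have hxU : x ∈ (S.chart j).U := by
      rw [hjU]
      exact ⟨hr.trans_le hx.1, hx1⟩
    rw [← hjm x hxU]
    exact S.sub j x hxU
  · have h1 := S.col_bd ⟨x, by simpa using hx1⟩
    have h2 : S.col x = bd ⟨x, by simpa using hx1⟩ := h1
    rw [h2]
    exact S.bd_mem _

theorem v1_cl (S : NFill n M bd N) {r' : ℝ} (hr : S.r < r') (hr1 : r' < 1) {h : M → ℝ}
    (hh : Hgt N h) {K : NNReal} {w : E n → E n} (hw : LipschitzOnWith K w (closedBall 0 1)) :
    ∃ K2 : NNReal, Cl h K2 (v1 S (w1 r' w)) := by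
  obtain ⟨K2, hK2⟩ := v1_lip S hr hr1 hw
  have hc : Continuous h := by
    have h1 : LipschitzWith 1 h := by
      refine LipschitzWith.of_dist_le_mul fun q q' => ?_
      rw [Real.dist_eq, NNReal.coe_one, one_mul, abs_le]
      constructor
      · have := hh.lip q' q
        rw [dist_comm] at this
        linarith
      · linarith [hh.lip q q']
    exact h1.continuous
  obtain ⟨c, hc0, hcA⟩ : ∃ c : ℝ, 0 < c ∧ ∀ q ∈ A' S r', c ≤ h q := by
    rcases (A' S r').eq_empty_or_nonempty with he | hne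
    · exact ⟨1, one_pos, fun q hq => by rw [he] at hq; exact absurd hq (notMem_empty q)⟩
    · obtain ⟨q0, hq0, hmin⟩ := (A'_compact S hr).exists_isMinOn hne hc.continuousOn
      exact ⟨h q0, (hh.pos q0).2 (A'_sub S hr hq0), fun q hq => hmin hq⟩
  set B : ℝ := ‖w 0‖ + K with hB
  have hB0 : 0 ≤ B := add_nonneg (norm_nonneg _) K.2
  have hBc : 0 ≤ B / c := by positivity
  refine ⟨max K2 ⟨B / c, hBc⟩, hK2.weaken (le_max_left _ _), fun q => ?_⟩
  by_cases hq : q ∈ A' S r'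
  · have h1 : ‖v1 S (w1 r' w) q‖ ≤ B := by
      obtain ⟨x, hx, rfl⟩ := hq
      rw [v1_col S _ ⟨hr.trans_le hx.1, hx.2⟩]
      exact (w1_bdd hr1 hw hx.2).2
    have h2 : B / c ≤ ((max K2 ⟨B / c, hBc⟩ : NNReal) : ℝ) := by
      have : (⟨B / c, hBc⟩ : NNReal) ≤ max K2 ⟨B / c, hBc⟩ := le_max_right _ _
      exact this
    calc ‖v1 S (w1 r' w) q‖ ≤ B := h1
      _ = B / c * c := by field_simp
      _ ≤ _ := mul_le_mul h2 (hcA q hq) hc0.le (by positivity)
  · rw [v1_zero S hr1 w hq, norm_zero]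
    exact mul_nonneg (NNReal.coe_nonneg _) (hh.nonneg q)

/-- Stokes -/
theorem t (hn : 1 ≤ n) (S : NFill n M bd N) (hvol : S.vol < ⊤) {h : M → ℝ} (hh : Hgt N h)
    {K : NNReal} {v : M → E n} {w : E n → E n} (hv : Cl h K v)
    (hw : LipschitzOnWith K w (closedBall 0 1)) (hb : ∀ x : Sph n, v (bd x) = w (x : E n)) :
    jn S v = ∫ y in ball (0 : E n) 1, (fderiv ℝ w y).det := by
  have hBAL := Pool.Agent.N979.CP.Fin.bal
  have hr1 : S.r < 1 := S.r_lt
  set r' : ℝ := (1 + S.r) / 2 with hr'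
  have h1 : S.r < r' := by rw [hr']; linarith
  have h2 : r' < 1 := by rw [hr']; linarith
  obtain ⟨K2, hK2⟩ := v1_cl S h1 h2 hh hw
  have hbd : ∀ x, v (bd x) = v1 S (w1 r' w) (bd x) := by
    intro x
    have hx : ‖(x : E n)‖ = 1 := norm_sph x
    rw [← S.col_bd x, v1_col S _ ⟨by rw [hx]; exact hr1, hx.le⟩, S.col_bd x, hb x]
    unfold w1
    rw [hx, eta_one h2, one_smul]
  have e1 : jn S v = jn S (v1 S (w1 r' w)) :=
    Tel.t hn S hvol hh (K := max K K2)
      ⟨hv.lip.weaken (le_max_left _ _), fun q => (hv.le q).trans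
        (mul_le_mul_of_nonneg_right (by exact_mod_cast le_max_left _ _) (hh.nonneg q))⟩
      ⟨hK2.lip.weaken (le_max_right _ _), fun q => (hK2.le q).trans
        (mul_le_mul_of_nonneg_right (by exact_mod_cast le_max_right _ _) (hh.nonneg q))⟩ hbd
  obtain ⟨j, hjU, hjm⟩ := S.col_chart
  have hA := A'_compact S h1
  have e2 : jn S (v1 S (w1 r' w)) =
      ∫ p in (S.chart j).U, (fderiv ℝ (v1 S (w1 r' w) ∘ (S.chart j).map) p).det := by
    rw [← (Cha.t S hn hvol hK2.lip).2.2 j]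
    unfold jn
    refine Finset.sum_congr rfl fun i _ => ?_
    refine setIntegral_eq_of_subset_of_forall_sdiff_eq_zero (S.chart i).meas_D
      (fun p hp => hp.1) fun p hp => ?_
    have hpD : p ∈ (S.chart i).D := hp.1
    have hpU : p ∈ (S.chart i).U := (S.chart i).D_sub hpD
    have hnot : (S.chart i).map p ∉ A' S r' := by
      rintro ⟨x, hx, hxp⟩
      rcases lt_or_eq_of_le hx.2 with hx1 | hx1
      · refine hp.2 ⟨hpD, x, ?_, ?_⟩
        · rw [hjU]
          exact ⟨h1.trans_le hx.1, hx1⟩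
        · rw [hjm x (by rw [hjU]; exact ⟨h1.trans_le hx.1, hx1⟩)]
          exact hxp
      · refine S.off_bd i p hpU ⟨x, by simpa using hx1⟩ ?_
        rw [← hxp, ← S.col_bd]
    have hev : (v1 S (w1 r' w) ∘ (S.chart i).map) =ᶠ[𝓝 p] fun _ => 0 := by
      have := (chart_cont (S.chart i) hpU).eventually (hA.isClosed.isOpen_compl.mem_nhds hnot)
      filter_upwards [this] with y hy
      exact v1_zero S h2 w hy
    rw [hev.fderiv_eq, fderiv_const_apply, det_zero hn]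
  have e3 : ∫ p in (S.chart j).U, (fderiv ℝ (v1 S (w1 r' w) ∘ (S.chart j).map) p).det =
      ∫ p in (S.chart j).U, (fderiv ℝ (w1 r' w) p).det := by
    refine setIntegral_congr_fun (S.chart j).isOpen_U.measurableSet fun p hp => ?_
    have hev : (v1 S (w1 r' w) ∘ (S.chart j).map) =ᶠ[𝓝 p] w1 r' w := by
      filter_upwards [(S.chart j).isOpen_U.mem_nhds hp] with y hy
      have hy' := hy
      rw [hjU] at hy'
      show v1 S (w1 r' w) ((S.chart j).map y) = _
      rw [hjm y hy, v1_col S _ ⟨hy'.1, hy'.2.le⟩]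
    show (fderiv ℝ (v1 S (w1 r' w) ∘ (S.chart j).map) p).det = _
    rw [hev.fderiv_eq]
  have e4 : ∫ y in ball (0 : E n) 1, (fderiv ℝ (w1 r' w) y).det =
      ∫ p in (S.chart j).U, (fderiv ℝ (w1 r' w) p).det := by
    refine setIntegral_eq_of_subset_of_forall_sdiff_eq_zero measurableSet_ball
      (fun p hp => ?_) fun p hp => ?_
    · rw [hjU] at hp
      simpa using hp.2
    · have hp1 : ‖p‖ < 1 := by simpa using hp.1
      have hp2 : ‖p‖ ≤ S.r := by
        by_contra hc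
        refine hp.2 ?_
        rw [hjU]
        exact ⟨not_le.1 hc, hp1⟩
      have hev : w1 r' w =ᶠ[𝓝 p] fun _ => 0 := by
        have : ∀ᶠ y : E n in 𝓝 p, ‖y‖ < r' :=
          continuous_norm.continuousAt.eventually (gt_mem_nhds (hp2.trans_lt h1))
        filter_upwards [this] with y hy
        unfold w1
        rw [eta_zero h2 hy.le, zero_smul]
      rw [hev.fderiv_eq, fderiv_const_apply, det_zero hn]
  have hK1 : 0 ≤ (K : ℝ) + (‖w 0‖ + K) / (1 - r') :=
    add_nonneg K.2 (div_nonneg (add_nonneg (norm_nonneg _) K.2) (by linarith))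
  have hw1 : LipschitzOnWith ⟨(K : ℝ) + (‖w 0‖ + K) / (1 - r'), hK1⟩ (w1 r' w)
      (closedBall 0 1) := by
    refine LipschitzOnWith.of_dist_le_mul fun x hx y hy => ?_
    rw [dist_eq_norm, dist_eq_norm]
    exact w1_lip h2 hw (by simpa using hx) (by simpa using hy)
  have e5 := hBAL n hn (max ⟨(K : ℝ) + (‖w 0‖ + K) / (1 - r'), hK1⟩ K) (w1 r' w) w
    (hw1.weaken (le_max_left _ _)) (hw.weaken (le_max_right _ _)) fun x hx => by
      have hx1 : ‖x‖ = 1 := by simpa using hx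
      unfold w1
      rw [hx1, eta_one h2, one_smul]
  rw [e1, e2, e3, ← e4, e5]


end

end Pool.Agent.H780.NV.Sto
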