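import Pool.Agent.H780.NV.Van

/-!
# The integral of the Jacobian determinant depends only on the boundary values (after `TEL` of the
library)
-/

set_option autoImplicit false

open MeasureTheory Metric Set Filter Topology Matrix

namespace Pool.Agent.H780.NV.Tel

open Pool.Agent.H241R3.FV Pool.Agent.N526.CP Pool.Agent.H780.NV
open Pool.Agent.N526.CP.TEL (ae_diff P P_same P_ne)

variable {n : ℕ} {M : Type} [MetricSpace M] {bd : Sph n → M} {N : Set M}

/-- one component -/
theorem step (hn : 1 ≤ n) (S : NFill n M bd N) (hvol : S.vol < ⊤) {h : M → ℝ} (hh : Hgt N h)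
    {K K' K'' : NNReal} {a b : M → E n}
    (ha : LipschitzWith K a) (hb : LipschitzWith K' b) (k : Fin n)
    (hah : ∀ q, |a q k| ≤ K'' * h q) (hbh : ∀ q, |b q k| ≤ K'' * h q)
    (hab : ∀ q, ∀ i, i ≠ k → b q i = a q i) (hbd : ∀ x, b (bd x) k = a (bd x) k) :
    jn S b = jn S a := by
  set z : M → E n := fun q => a q + P k (b q) - (P k (a q) + P k (a q)) with hz
  have hzL : LipschitzWith (K + ‖P k‖₊ * K' + (‖P k‖₊ * K + ‖P k‖₊ * K)) z := by
    have h1 := (P k).lipschitz.comp hb
    have h2 := (P k).lipschitz.comp ha
    exact (ha.add h1).sub (h2.add h2)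
  have hz0 : jn S z = 0 := by
    refine Van.t hn S hvol hh (hzL.weaken (le_max_left _ (K'' + K''))) k (fun q => ?_) fun x => ?_
    · have e1 : z q k = b q k - a q k := by
        simp only [hz, PiLp.sub_apply, PiLp.add_apply, P_same]
        ring
      rw [e1]
      have e2 : |b q k - a q k| ≤ |b q k| + |a q k| := abs_sub _ _
      have e3 : ((K'' + K'' : NNReal) : ℝ) * h q = K'' * h q + K'' * h q := by
        rw [NNReal.coe_add, add_mul]
      refine (e2.trans (add_le_add (hbh q) (hah q))).trans ?_
      rw [← e3]
      refine mul_le_mul_of_nonneg_right ?_ (hh.nonneg q)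
      exact_mod_cast le_max_right _ _
    · simp only [hz, PiLp.sub_apply, PiLp.add_apply, P_same, hbd]
      ring
  have hIa := (Cha.t S hn hvol ha).1
  have hIz := (Cha.t S hn hvol hzL).1
  have key : ∀ i, ∫ p in (S.chart i).D, (fderiv ℝ (b ∘ (S.chart i).map) p).det =
      (∫ p in (S.chart i).D, (fderiv ℝ (a ∘ (S.chart i).map) p).det) +
      ∫ p in (S.chart i).D, (fderiv ℝ (z ∘ (S.chart i).map) p).det := by
    intro i
    rw [← integral_add (hIa i) (hIz i)]
    refine setIntegral_congr_ae (S.chart i).meas_D ?_
    filter_upwards [ae_diff (S.chart i) ha, ae_diff (S.chart i) hb] with p h1 h2 hp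
    have hpU := (S.chart i).D_sub hp
    have dA := (h1 hpU).hasFDerivAt
    have dB := (h2 hpU).hasFDerivAt
    set A := fderiv ℝ (a ∘ (S.chart i).map) p with hA
    set B := fderiv ℝ (b ∘ (S.chart i).map) p with hB
    have dPA : HasFDerivAt (fun y => P k ((a ∘ (S.chart i).map) y)) ((P k).comp A) p :=
      (P k).hasFDerivAt.comp p dA
    have dPB : HasFDerivAt (fun y => P k ((b ∘ (S.chart i).map) y)) ((P k).comp B) p :=
      (P k).hasFDerivAt.comp p dB
    have dZ : HasFDerivAt (z ∘ (S.chart i).map)
        (A + (P k).comp B - ((P k).comp A + (P k).comp A)) p :=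
      (dA.add dPB).sub (dPA.add dPA)
    have hBB : B = A + (P k).comp B - (P k).comp A := by
      have h3 : HasFDerivAt (b ∘ (S.chart i).map) (A + (P k).comp B - (P k).comp A) p := by
        have h4 := (dA.add dPB).sub dPA
        refine h4.congr_of_eventuallyEq (Eventually.of_forall fun y => ?_)
        show b ((S.chart i).map y) = a ((S.chart i).map y) + P k (b ((S.chart i).map y)) -
          P k (a ((S.chart i).map y))
        ext j
        simp only [PiLp.sub_apply, PiLp.add_apply]
        by_cases hj : j = k
        · subst hj
          rw [P_same, P_same]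
          ring
        · rw [P_ne hj, P_ne hj, hab _ j hj]
          ring
      exact dB.unique h3
    rw [dZ.fderiv]
    simp only [det_mat]
    have e1 : mat B = (mat A).updateRow k (mat A k + (mat B k - mat A k)) := by
      ext j l
      by_cases hj : j = k
      · subst hj
        rw [updateRow_self]
        simp
      · rw [updateRow_ne hj]
        show (B (EuclideanSpace.single l 1)) j = (A (EuclideanSpace.single l 1)) j
        rw [hBB]
        simp [P_ne hj]
    have e2 : mat (A + (P k).comp B - ((P k).comp A + (P k).comp A)) =
        (mat A).updateRow k (mat B k - mat A k) := by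
      ext j l
      by_cases hj : j = k
      · subst hj
        rw [updateRow_self]
        simp only [mat, Pi.sub_apply, _root_.sub_apply, _root_.add_apply,
          ContinuousLinearMap.comp_apply, PiLp.sub_apply, PiLp.add_apply, P_same]
        ring
      · rw [updateRow_ne hj]
        simp only [mat, _root_.sub_apply, _root_.add_apply,
          ContinuousLinearMap.comp_apply, PiLp.sub_apply, PiLp.add_apply, P_ne hj]
        ring
    rw [e1, e2, det_updateRow_add, updateRow_eq_self]
  unfold jn at hz0 ⊢
  rw [Finset.sum_congr rfl (fun i _ => key i), Finset.sum_add_distrib, hz0, add_zero]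

/-- the integral depends only on the boundary values -/
theorem t (hn : 1 ≤ n) (S : NFill n M bd N) (hvol : S.vol < ⊤) {h : M → ℝ} (hh : Hgt N h)
    {K : NNReal} {v w : M → E n} (hv' : Cl h K v) (hw' : Cl h K w)
    (hvw : ∀ x, v (bd x) = w (bd x)) : jn S v = jn S w := by
  have hv := hv'.lip
  have hw := hw'.lip
  have hvk : ∀ q (j : Fin n), |v q j| ≤ K * h q := fun q j => by
    refine le_trans ?_ (hv'.le q)
    simpa using PiLp.norm_apply_le (v q) j
  have hwk : ∀ q (j : Fin n), |w q j| ≤ K * h q := fun q j => by
    refine le_trans ?_ (hw'.le q)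
    simpa using PiLp.norm_apply_le (w q) j
  have key : ∀ A : Finset (Fin n), ∃ (K' : NNReal) (u : M → E n), LipschitzWith K' u ∧
      (∀ q j, u q j = if j ∈ A then w q j else v q j) ∧ jn S u = jn S v := by
    intro A
    induction A using Finset.induction_on with
    | empty => exact ⟨K, v, hv, fun q j => by simp, rfl⟩
    | insert k A hk ih =>
      obtain ⟨K', u, hu, huv, hj⟩ := ih
      have hL : LipschitzWith (K' + ‖P k‖₊ * K + ‖P k‖₊ * K')
          (fun q => u q + P k (w q) - P k (u q)) := by
        have h1 := (P k).lipschitz.comp hw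
        have h2 := (P k).lipschitz.comp hu
        exact (hu.add h1).sub h2
      refine ⟨_, _, hL, ?_, ?_⟩
      · intro q j
        simp only [PiLp.sub_apply, PiLp.add_apply]
        by_cases hjk : j = k
        · subst hjk
          rw [P_same, P_same, if_pos (Finset.mem_insert_self _ _)]
          ring
        · rw [P_ne hjk, P_ne hjk, huv]
          by_cases hjA : j ∈ A
          · rw [if_pos hjA, if_pos (Finset.mem_insert_of_mem hjA)]
            ring
          · rw [if_neg hjA, if_neg (by
              rw [Finset.mem_insert]
              rintro (h | h)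
              · exact hjk h
              · exact hjA h)]
            ring
      · rw [← hj]
        refine step hn S hvol hh (K'' := K) hu hL k ?_ ?_ ?_ ?_
        · intro q
          rw [huv, if_neg hk]
          exact hvk q k
        · intro q
          simp only [PiLp.sub_apply, PiLp.add_apply, P_same, huv, if_neg hk]
          rw [add_sub_cancel_left]
          exact hwk q k
        · intro q i hi
          simp only [PiLp.sub_apply, PiLp.add_apply, P_ne hi]
          ring
        · intro x
          simp only [PiLp.sub_apply, PiLp.add_apply, P_same, huv, if_neg hk, hvw]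
          ring
  obtain ⟨K', u, _, huv, hj⟩ := key Finset.univ
  have : u = w := by
    funext q
    ext j
    rw [huv, if_pos (Finset.mem_univ _)]
  rw [← this, hj]


end Pool.Agent.H780.NV.Tel
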