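import Pool.Agent.H780.NV.Loc

/-!
# Maps with one component vanishing at the boundary have integral zero (after `VAN` of the library)
-/

set_option autoImplicit false

open MeasureTheory Metric Set Filter Topology InnerProductGeometry Matrix

namespace Pool.Agent.H780.NV.Van

open Pool.Agent.H241R3.FV Pool.Agent.N526.CP Pool.Agent.H780.NV
open Pool.Agent.N526.CP.VAN (loc_lip ae_diff cont_comp ae_level up up_apply_self up_self lip_coord
  up_lip det_up tr tr_lip tr_zero tr_pos tr_neg fd_lt fd_gt fd_eq Lip exists_min)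

theorem bddB {M : Type} {f g : M → ℝ} (hf : ∃ A : ℝ, ∀ q, |f q| ≤ A)
    (hg : ∃ A : ℝ, ∀ q, |g q| ≤ A) : ∃ A : ℝ, ∀ q, |f q * g q| ≤ A := by
  obtain ⟨A, hA⟩ := hf
  obtain ⟨A', hA'⟩ := hg
  refine ⟨A * A', fun q => ?_⟩
  rw [abs_mul]
  exact mul_le_mul (hA q) (hA' q) (abs_nonneg _) ((abs_nonneg _).trans (hA q))

theorem mulB {M : Type} [MetricSpace M] {f g : M → ℝ} (hf : Lip f) (hg : Lip g)
    (hfb : ∃ A : ℝ, ∀ q, |f q| ≤ A) (hgb : ∃ A : ℝ, ∀ q, |g q| ≤ A) :
    Lip fun q => f q * g q := by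
  obtain ⟨A, hA⟩ := hfb
  obtain ⟨A', hA'⟩ := hgb
  obtain ⟨K, hK0, hK⟩ := hf.le
  obtain ⟨L, hL0, hL⟩ := hg.le
  refine Lip.of_le (A := A * L + A' * K) fun q q' => ?_
  have e : f q * g q - f q' * g q' = f q * (g q - g q') + g q' * (f q - f q') := by ring
  rw [e]
  calc |f q * (g q - g q') + g q' * (f q - f q')|
      ≤ |f q| * |g q - g q'| + |g q'| * |f q - f q'| := by
        rw [← abs_mul, ← abs_mul]
        exact abs_add_le _ _
    _ ≤ A * (L * dist q q') + A' * (K * dist q q') :=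
        add_le_add (mul_le_mul (hA q) (hL q q') (abs_nonneg _) ((abs_nonneg _).trans (hA q)))
          (mul_le_mul (hA' q') (hK q q') (abs_nonneg _) ((abs_nonneg _).trans (hA' q')))
    _ = (A * L + A' * K) * dist q q' := by ring

variable {n : ℕ} {M : Type} [MetricSpace M] {bd : Sph n → M} {N : Set M}

lemma J_add (hn : 1 ≤ n) (S : NFill n M bd N) (hS : S.vol < ⊤) {K : NNReal} {v : M → E n}
    (hv : LipschitzWith K v) (k : Fin n) {φ ψ : M → ℝ} (hφ : Lip φ) (hψ : Lip ψ) :
    jn S (up v k fun q => φ q + ψ q) = jn S (up v k φ) + jn S (up v k ψ) := by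
  obtain ⟨L1, hL1⟩ := up_lip hv k hφ
  obtain ⟨L2, hL2⟩ := up_lip hv k hψ
  have h1 := (Cha.t S hn hS hL1).1
  have h2 := (Cha.t S hn hS hL2).1
  unfold jn
  rw [← Finset.sum_add_distrib]
  refine Finset.sum_congr rfl fun i _ => ?_
  rw [← integral_add (h1 i) (h2 i)]
  refine integral_congr_ae ?_
  rw [Filter.EventuallyEq, ae_restrict_iff' (S.chart i).meas_D]
  obtain ⟨L3, hL3⟩ := hφ
  obtain ⟨L4, hL4⟩ := hψ
  filter_upwards [ae_diff (S.chart i) hv, ae_diff (S.chart i) hL3, ae_diff (S.chart i) hL4]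
    with p hp1 hp2 hp3 hpD
  have hpU := (S.chart i).D_sub hpD
  have e1 := det_up (S.chart i).map v k φ p (hp1 hpU) (hp2 hpU)
  have e2 := det_up (S.chart i).map v k ψ p (hp1 hpU) (hp3 hpU)
  have e3 := det_up (S.chart i).map v k (fun q => φ q + ψ q) p (hp1 hpU)
    ((hp2 hpU).add (hp3 hpU))
  have e4 : fderiv ℝ ((fun q => φ q + ψ q) ∘ (S.chart i).map) p =
      fderiv ℝ (φ ∘ (S.chart i).map) p + fderiv ℝ (ψ ∘ (S.chart i).map) p :=
    fderiv_add (hp2 hpU) (hp3 hpU)
  rw [e1, e2, e3, e4, ← det_updateRow_add]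
  rfl

lemma J_sum (hn : 1 ≤ n) (S : NFill n M bd N) (hS : S.vol < ⊤) {K : NNReal} {v : M → E n}
    (hv : LipschitzWith K v) (k : Fin n) {ι : Type} (t : Finset ι) (f : ι → M → ℝ)
    (hf : ∀ i ∈ t, Lip (f i)) (h0 : ∀ i ∈ t, jn S (up v k (f i)) = 0) :
    jn S (up v k fun q => ∑ i ∈ t, f i q) = 0 := by
  classical
  induction t using Finset.induction_on with
  | empty =>
    simp only [Finset.sum_empty]
    have h := J_add hn S hS hv k (φ := fun _ => 0) (ψ := fun _ => 0) Lip.zero Lip.zero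
    simp only [add_zero] at h
    linarith
  | insert a t ha ih =>
    simp only [Finset.sum_insert ha]
    rw [J_add hn S hS hv k (hf a (Finset.mem_insert_self _ _))
      (Lip.sum t f fun i hi => hf i (Finset.mem_insert_of_mem hi)),
      h0 a (Finset.mem_insert_self _ _),
      ih (fun i hi => hf i (Finset.mem_insert_of_mem hi))
        (fun i hi => h0 i (Finset.mem_insert_of_mem hi)), add_zero]

/-- functions which vanish near the boundary -/
lemma J_trunc (hn : 1 ≤ n) (S : NFill n M bd N) (hS : S.vol < ⊤) {h : M → ℝ} (hh : Hgt N h)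
    {K : NNReal} {v : M → E n} (hv : LipschitzWith K v) (k : Fin n)
    (hvh : ∀ q, |v q k| ≤ K * h q)
    (hbd : ∀ x, v (bd x) k = 0) (δ : ℝ) (hδ : 0 < δ) :
    jn S (up v k fun q => tr δ (v q k)) = 0 := by
  have hpos : ∀ q, δ ≤ |v q k| → δ / (K + 1) ≤ h q := by
    intro q hq
    have h1 := hvh q
    have h2 := hh.nonneg q
    have h3 : (0 : ℝ) ≤ K := K.2
    rw [div_le_iff₀ (by positivity)]
    nlinarith
  have hbv : ∃ A : ℝ, ∀ q, |tr δ (v q k)| ≤ A := by
    obtain ⟨Bh, hBh⟩ := hh.bdd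
    refine ⟨K * Bh, fun q => ?_⟩
    have h1 := tr_lip δ hδ.le (v q k) 0
    have h0 : tr δ 0 = 0 := tr_zero (by rw [abs_zero]; exact hδ.le)
    rw [h0, sub_zero, sub_zero] at h1
    exact h1.trans ((hvh q).trans (mul_le_mul_of_nonneg_left (hBh q) K.2))
  have hφc : Continuous fun q => v q k := (lip_coord hv k).continuous
  have hτ : Lip fun q => tr δ (v q k) := by
    refine Lip.of_le (A := K) fun q q' => ?_
    refine (tr_lip δ hδ.le _ _).trans ?_
    have := (lip_coord hv k).dist_le_mul q q'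
    rwa [Real.dist_eq] at this
  have hCc : IsCompact {q : M | δ ≤ |v q k|} :=
    (hh.cpt (δ / (K + 1)) (by positivity)).of_isClosed_subset
      (isClosed_le continuous_const hφc.abs) fun q hq => hpos q hq
  have hcov : ∀ q ∈ {q : M | δ ≤ |v q k|}, ∃ r : ℝ, 0 < r ∧ ∃ i,
      closedBall q (2 * r) ⊆ (S.chart i).map '' (S.chart i).U := by
    intro q hq
    have hqN : q ∈ N := by
      refine (hh.pos q).1 (lt_of_lt_of_le ?_ (hpos q hq))
      positivity
    rcases S.cover q hqN with ⟨x, rfl⟩ | ⟨i, p, hp, rfl⟩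
    · exfalso
      rw [Set.mem_ofPred_eq, hbd, abs_zero] at hq
      linarith
    · have ho : IsOpen ((S.chart i).map '' (S.chart i).U) :=
        S.open_map i _ subset_rfl (S.chart i).isOpen_U
      obtain ⟨ε, hε, hb⟩ := Metric.isOpen_iff.1 ho _ ⟨p, (S.chart i).D_sub hp, rfl⟩
      refine ⟨ε / 3, by positivity, i, (closedBall_subset_ball ?_).trans hb⟩
      linarith
  choose! r hr0 hri using hcov
  obtain ⟨t, htC, htcov⟩ := hCc.elim_nhds_subcover (fun q => ball q (r q))
    (fun q hq => ball_mem_nhds q (hr0 q hq))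
  obtain ⟨η, hη, hηr⟩ := exists_min t r fun x hx => hr0 x (htC x hx)
  set b : M → M → ℝ := fun x q => max (2 * r x - dist q x) 0 with hb
  have hbL : ∀ x, Lip (b x) := by
    intro x
    refine Lip.max ?_ 0
    refine Lip.of_le (A := 1) fun q q' => ?_
    rw [one_mul, show 2 * r x - dist q x - (2 * r x - dist q' x) = dist q' x - dist q x by ring,
      abs_sub_comm]
    exact abs_dist_sub_le q q' x
  have hb0 : ∀ x q, 0 ≤ b x q := fun x q => le_max_right _ _
  set B : M → ℝ := fun q => max (∑ x ∈ t, b x q) η with hB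
  have hBL : Lip B := (Lip.sum t b fun x _ => hbL x).max η
  have hBη : ∀ q, η ≤ B q := fun q => le_max_right _ _
  have hBi : Lip fun q => (B q)⁻¹ := hBL.inv hη hBη
  have hbb : ∀ x, ∃ A : ℝ, ∀ q, |b x q| ≤ A := by
    intro x
    refine ⟨max (2 * r x) 0, fun q => ?_⟩
    rw [abs_of_nonneg (hb0 x q)]
    refine max_le_max ?_ le_rfl
    linarith [dist_nonneg (x := q) (y := x)]
  have hBb : ∃ A : ℝ, ∀ q, |(B q)⁻¹| ≤ A := by
    refine ⟨η⁻¹, fun q => ?_⟩
    have h1 : 0 < B q := lt_of_lt_of_le hη (hBη q)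
    rw [abs_of_pos (inv_pos.2 h1)]
    exact inv_anti₀ hη (hBη q)
  have hprod : ∀ x, Lip fun q => b x q * (B q)⁻¹ * tr δ (v q k) := fun x =>
    mulB (mulB (hbL x) hBi (hbb x) hBb) hτ (bddB (hbb x) hBb) hbv
  have hsum : (fun q => tr δ (v q k)) =
      fun q => ∑ x ∈ t, b x q * (B q)⁻¹ * tr δ (v q k) := by
    funext q
    rw [← Finset.sum_mul, ← Finset.sum_mul]
    by_cases hq : δ ≤ |v q k|
    · obtain ⟨x, hx, hqx⟩ := mem_iUnion₂.1 (htcov hq)
      have h1 : η ≤ ∑ x ∈ t, b x q := by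
        refine le_trans ?_ (Finset.single_le_sum (fun y _ => hb0 y q) hx)
        rw [mem_ball] at hqx
        refine le_trans ?_ (le_max_left _ _)
        have := hηr x hx
        linarith
      have h2 : B q = ∑ x ∈ t, b x q := max_eq_left h1
      rw [← h2, mul_inv_cancel₀ (lt_of_lt_of_le hη (hBη q)).ne', one_mul]
    · rw [tr_zero (not_le.1 hq).le, mul_zero]
  rw [hsum]
  refine J_sum hn S hS hv k t (fun x q => b x q * (B q)⁻¹ * tr δ (v q k))
    (fun x _ => hprod x) fun x hx => ?_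
  obtain ⟨i, hi⟩ := hri x (htC x hx)
  obtain ⟨L, hLip⟩ := up_lip hv k (hprod x)
  refine Loc.t hn S hS hLip k i (C := closedBall x (2 * r x) ∩ {q : M | δ ≤ |v q k|})
    (hCc.inter_left isClosed_closedBall) (inter_subset_left.trans hi) ?_
  intro q hq
  rw [up_apply_self]
  by_cases hq1 : q ∈ closedBall x (2 * r x)
  · have hq2 : |v q k| ≤ δ := by
      by_contra hc
      exact hq ⟨hq1, (not_le.1 hc).le⟩
    rw [tr_zero hq2, mul_zero]
  · have : b x q = 0 := by
      rw [mem_closedBall, not_le] at hq1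
      exact max_eq_right (by linarith)
    rw [this, zero_mul, zero_mul]

/-- maps with one component vanishing at the boundary -/
theorem t (hn : 1 ≤ n) (S : NFill n M bd N) (hS : S.vol < ⊤) {h : M → ℝ} (hh : Hgt N h)
    {K : NNReal} {v : M → E n} (hv : LipschitzWith K v) (k : Fin n)
    (hvh : ∀ q, |v q k| ≤ K * h q) (hbd : ∀ x, v (bd x) k = 0) : jn S v = 0 := by
  have hδ : ∀ m : ℕ, (0 : ℝ) < 1 / ((m : ℝ) + 1) := fun m => by positivity
  have hφL := lip_coord hv k
  have hτ : ∀ m : ℕ, LipschitzWith K fun q => tr (1 / ((m : ℝ) + 1)) (v q k) := by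
    intro m
    refine LipschitzWith.of_dist_le_mul fun q q' => ?_
    rw [Real.dist_eq]
    refine (tr_lip _ (hδ m).le _ _).trans ?_
    have := hφL.dist_le_mul q q'
    rwa [Real.dist_eq] at this
  have hlim : Tendsto (fun m : ℕ => jn S (up v k fun q => tr (1 / ((m : ℝ) + 1)) (v q k))) atTop
      (𝓝 (jn S v)) := by
    unfold jn
    refine tendsto_finsetSum _ fun i _ => ?_
    have hint := (Cha.t S hn hS hv).1 i
    have hUo := (S.chart i).isOpen_U
    have hlev := ae_level (S.chart i).U hUo k (cont_comp (S.chart i) hφL)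
      (ae_diff (S.chart i) hφL)
    have hall : ∀ᵐ p ∂(volume : Measure (E n)), ∀ m : ℕ, p ∈ (S.chart i).U →
        DifferentiableAt ℝ ((fun q => tr (1 / ((m : ℝ) + 1)) (v q k)) ∘ (S.chart i).map) p :=
      ae_all_iff.2 fun m => ae_diff (S.chart i) (hτ m)
    -- the determinants
    have hrow : ∀ p, DifferentiableAt ℝ (v ∘ (S.chart i).map) p →
        (mat (fderiv ℝ (v ∘ (S.chart i).map) p)).updateRow k
          (fun j => fderiv ℝ ((fun q => v q k) ∘ (S.chart i).map) p
            (EuclideanSpace.single j 1)) = mat (fderiv ℝ (v ∘ (S.chart i).map) p) := by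
      intro p hp
      have h2 : HasFDerivAt ((fun q => v q k) ∘ (S.chart i).map)
          ((EuclideanSpace.proj k : E n →L[ℝ] ℝ).comp (fderiv ℝ (v ∘ (S.chart i).map) p)) p :=
        (EuclideanSpace.proj k : E n →L[ℝ] ℝ).hasFDerivAt.comp p hp.hasFDerivAt
      rw [h2.fderiv]
      ext a b
      rw [updateRow_apply]
      by_cases ha : a = k
      · subst ha
        simp [mat]
      · simp [ha]
    have hzero : ∀ (A : Matrix (Fin n) (Fin n) ℝ), (A.updateRow k fun j =>
        (0 : E n →L[ℝ] ℝ) (EuclideanSpace.single j 1)).det = 0 := by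
      intro A
      refine det_eq_zero_of_row_eq_zero k fun j => ?_
      rw [updateRow_self]
      rfl
    have hkey : ∀ p ∈ (S.chart i).U, DifferentiableAt ℝ (v ∘ (S.chart i).map) p →
        (∀ m : ℕ, DifferentiableAt ℝ
          ((fun q => tr (1 / ((m : ℝ) + 1)) (v q k)) ∘ (S.chart i).map) p) → ∀ m : ℕ,
        (1 / ((m : ℝ) + 1) < |v ((S.chart i).map p) k| ∧
          (fderiv ℝ (up v k (fun q => tr (1 / ((m : ℝ) + 1)) (v q k)) ∘ (S.chart i).map) p).det =
            (fderiv ℝ (v ∘ (S.chart i).map) p).det) ∨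
        (|v ((S.chart i).map p) k| ≤ 1 / ((m : ℝ) + 1) ∧
          (fderiv ℝ (up v k (fun q => tr (1 / ((m : ℝ) + 1)) (v q k)) ∘ (S.chart i).map) p).det =
            0) := by
      intro p hpU hp1 hp2 m
      have hcp : ContinuousAt ((fun q => v q k) ∘ (S.chart i).map) p :=
        (cont_comp (S.chart i) hφL).continuousAt (hUo.mem_nhds hpU)
      have e1 := det_up (S.chart i).map v k (fun q => tr (1 / ((m : ℝ) + 1)) (v q k)) p hp1
        (hp2 m)
      have e2 : ((fun q => tr (1 / ((m : ℝ) + 1)) (v q k)) ∘ (S.chart i).map) =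
          fun y => tr (1 / ((m : ℝ) + 1)) (((fun q => v q k) ∘ (S.chart i).map) y) := rfl
      rcases lt_or_ge (1 / ((m : ℝ) + 1)) |v ((S.chart i).map p) k| with h | h
      · left
        refine ⟨h, ?_⟩
        rw [e1, e2, fd_gt (hδ m).le hcp h, hrow p hp1, det_mat]
      · right
        refine ⟨h, ?_⟩
        rcases h.lt_or_eq with h' | h'
        · rw [e1, e2, fd_lt hcp h', hzero]
        · rw [e1, e2, fd_eq (hδ m) hcp h', hzero]
    refine tendsto_integral_of_dominated_convergence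
      (fun p => ‖(fderiv ℝ (v ∘ (S.chart i).map) p).det‖) ?_ hint.norm ?_ ?_
    · intro m
      obtain ⟨L, hLip⟩ := up_lip hv k ⟨K, hτ m⟩
      exact ((Cha.t S hn hS hLip).1 i).aestronglyMeasurable
    · intro m
      rw [ae_restrict_iff' (S.chart i).meas_D]
      filter_upwards [ae_diff (S.chart i) hv, hall] with p hp1 hp2 hpD
      have hpU := (S.chart i).D_sub hpD
      rcases hkey p hpU (hp1 hpU) (fun m => hp2 m hpU) m with ⟨-, h⟩ | ⟨-, h⟩
      · rw [h]
      · rw [h, norm_zero]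
        exact norm_nonneg _
    · rw [ae_restrict_iff' (S.chart i).meas_D]
      filter_upwards [ae_diff (S.chart i) hv, hall, hlev] with p hp1 hp2 hp3 hpD
      have hpU := (S.chart i).D_sub hpD
      by_cases h0 : v ((S.chart i).map p) k = 0
      · have h1 : (fderiv ℝ (v ∘ (S.chart i).map) p).det = 0 := by
          rw [det_mat, ← hrow p (hp1 hpU), hp3 hpU h0, hzero]
        rw [h1]
        refine tendsto_const_nhds.congr fun m => ?_
        rcases hkey p hpU (hp1 hpU) (fun m => hp2 m hpU) m with ⟨-, h⟩ | ⟨-, h⟩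
        · rw [h, h1]
        · rw [h]
      · have h1 : 0 < |v ((S.chart i).map p) k| := abs_pos.2 h0
        have h2 : ∀ᶠ m : ℕ in atTop, 1 / ((m : ℝ) + 1) < |v ((S.chart i).map p) k| :=
          (tendsto_one_div_add_atTop_nhds_zero_nat (𝕜 := ℝ)).eventually_lt_const h1
        refine tendsto_const_nhds.congr' ?_
        filter_upwards [h2] with m hm
        rcases hkey p hpU (hp1 hpU) (fun m => hp2 m hpU) m with ⟨-, h⟩ | ⟨h', -⟩
        · rw [h]
        · exact absurd hm (not_lt.2 h')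
  have h0 : ∀ m : ℕ, jn S (up v k fun q => tr (1 / ((m : ℝ) + 1)) (v q k)) = 0 := fun m =>
    J_trunc hn S hS hh hv k hvh hbd _ (hδ m)
  simp only [h0] at hlim
  exact (tendsto_nhds_unique hlim tendsto_const_nhds)


end Pool.Agent.H780.NV.Van
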